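import Pool.Agent.W92.DP.Defs
import Pool.Agent.H988R6.Up

/-!
Lower bound for the plus event (`St_P`): one scale of the separation of arms with a small error,
and the sharp four-arm exponent.
-/

namespace Pool.Agent.W598.DP

open H974 H12S Finset

/-- one scale, with a small error -/
theorem one_scale_small (ε : ℝ) (hε : 0 < ε) : ∃ (L M : ℕ) (K : ℝ), 2 ≤ L ∧ 64 ≤ M ∧ 0 < K ∧
    ∀ (r : ℕ), 1 ≤ r → ∀ β : Bool,
      a4b (1/2) (4 * L * (M * r)) β ≤ K * PQ (1/2) (boxE (16 * L * (M * r)))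
          (fun F => Plus (4 * L * (M * r)) (M * r) (16 * L * (M * r)) (e0 β) ↑F) +
        3 * ε / (32 * (192 * L : ℝ) ^ (5/4 : ℝ)) * a4 (1/2) ((M * r) / 8) := by
  obtain ⟨κ, hκ, hwin⟩ := win_half
  obtain ⟨C, c, hC, hc, hex⟩ := exit_prob2 κ hκ
  obtain ⟨L, hL, hLK⟩ := KY_choose_L (C / ε) c (5/4) hc
  have hL0 : (0:ℝ) < L := by
    have : 0 < L := by omega
    exact_mod_cast this
  obtain ⟨K, hK⟩ : ∃ K : ℝ, K = (192 * L : ℝ) ^ (5/4 : ℝ) := ⟨_, rfl⟩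
  have hK0 : 0 < K := by rw [hK]; positivity
  rw [show (64 * (3 * L : ℕ) : ℝ) = 192 * L by push_cast; ring, ← hK] at hLK
  obtain ⟨M1, M2, N, hM1, hM2, hex2⟩ := hex L (ε / (32 * K)) hL (by positivity)
  obtain ⟨cd, hcd⟩ : ∃ cd : ℕ, cd = (2 * (2 * N + 1)) * (2 * (2 * N + 1)) := ⟨_, rfl⟩
  have hcd0 : (0:ℝ) < cd := by
    have : 0 < cd := by rw [hcd]; positivity
    exact_mod_cast this
  obtain ⟨Mr, c', hMr, hc', hglue⟩ := plus_glue κ hκ L M1 M2 hL hM1 hM2 (ε / (32 * K * cd))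
    (by positivity)
  have ok := okq (q := 1/2) (by norm_num) (by norm_num)
  refine ⟨L, M2 * Mr, cd / c', hL, ?_, by positivity, ?_⟩
  · calc 64 ≤ M1 := hM1
      _ ≤ M2 := by omega
      _ ≤ M2 * Mr := Nat.le_mul_of_pos_right _ hMr
  · intro r' hr' β
    obtain ⟨r, hr⟩ : ∃ r : ℕ, r = Mr * r' := ⟨_, rfl⟩
    obtain ⟨m, hm⟩ : ∃ m : ℕ, m = M2 * r := ⟨_, rfl⟩
    have hmm : M2 * Mr * r' = m := by rw [hm, hr]; ring
    rw [hmm]
    have hr1 : Mr ≤ r := by rw [hr]; exact Nat.le_mul_of_pos_right _ hr'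
    have hM2p : 0 < M2 := by omega
    have hmM : M2 ≤ m := by rw [hm]; exact Nat.le_mul_of_pos_right _ (by omega)
    have hm64 : 64 ≤ m := by omega
    have hmr : m / M2 = r := by rw [hm]; exact Nat.mul_div_cancel_left _ hM2p
    have hrpos : 0 < r := by omega
    have ha8 : 0 ≤ a4 (1/2) (m / 8) := a4_nonneg (by norm_num) (by norm_num) _
    have hcell : ∀ p ∈ prs L m r N, |2 * p.1.2| ≤ (L:ℤ) * M2 + 1 ∧
        |2 * p.2.2| ≤ (L:ℤ) * M2 + 1 := by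
      intro p hp
      unfold prs at hp
      rw [Finset.mem_filter] at hp
      obtain ⟨-, g1, g2⟩ := hp
      have hrz : (0:ℤ) < r := by exact_mod_cast hrpos
      have key : ∀ x : ℤ, |2 * (r:ℤ) * x| ≤ ((L * m : ℕ) : ℤ) + (r:ℤ) →
          |2 * x| ≤ (L:ℤ) * M2 + 1 := by
        intro x hx
        have e1 : |2 * (r:ℤ) * x| = (r:ℤ) * |2 * x| := by
          rw [show 2 * (r:ℤ) * x = (r:ℤ) * (2 * x) by ring, abs_mul, abs_of_pos hrz]
        have e2 : ((L * m : ℕ) : ℤ) + (r:ℤ) = (r:ℤ) * ((L:ℤ) * M2 + 1) := by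
          rw [hm]; push_cast; ring
        rw [e1, e2] at hx
        exact le_of_mul_le_mul_left hx hrz
      exact ⟨key _ g1, key _ g2⟩
    obtain ⟨P, hP⟩ : ∃ P : ℝ, P = PQ (1/2) (boxE (16 * L * m))
      (fun F => H12S.Plus (4 * L * m) m (16 * L * m) (e0 β) ↑F) := ⟨_, rfl⟩
    rw [← hP, ← hK]
    have s1 : a4b (1/2) (4 * L * m) β ≤ PQ (1/2) (SR L m)
        (fun F => A4 (-(2 * L * m : ℕ)) (2 * L * m : ℕ) (-m) m (e0 β) ↑F) :=
      thin_ge (by norm_num) (by norm_num) hL hm64 (x := 0) (y := 0) (b := β)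
        (kc_e0_mem hm64 β)
    have s2 := hex2 (1/2) (4 * L * m) (hwin _) m hmM le_rfl (e0 β) (kc_e0_mem hm64 β)
    rw [hmr] at s2
    have s3 : ∀ p ∈ prs L m r N, PQ (1/2) (SR L m) (fun F =>
        Sev L m r (m / M1) p.1.1 (2 * r * p.1.2) p.2.1 (2 * r * p.2.2) (e0 β) ↑F) ≤
        P / c' + ε / (32 * K * cd) * a4 (1/2) (m / 8) := by
      intro p hp
      have g1 := hglue (1/2) (16 * L * m) (hwin _) r m hr1 hm le_rfl p.1.1 p.2.1 p.1.2 p.2.2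
        (hcell p hp).1 (hcell p hp).2 β
      rw [← hP] at g1
      rw [mul_comm, ← le_div_iff₀ hc'] at g1
      linarith
    have hcard : ((prs L m r N).card : ℝ) ≤ cd := by
      rw [hcd]
      exact_mod_cast kc_prs_card L m r N
    have hP0 : 0 ≤ P := by
      rw [hP]
      exact Pr_nonneg ok _ _
    have s4 : ∑ p ∈ prs L m r N, PQ (1/2) (SR L m) (fun F =>
        Sev L m r (m / M1) p.1.1 (2 * r * p.1.2) p.2.1 (2 * r * p.2.2) (e0 β) ↑F) ≤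
        cd * (P / c' + ε / (32 * K * cd) * a4 (1/2) (m / 8)) := by
      refine (Finset.sum_le_card_nsmul _ _ _ s3).trans ?_
      rw [nsmul_eq_mul]
      exact mul_le_mul_of_nonneg_right hcard (by positivity)
    have e1 : cd * (ε / (32 * K * cd) * a4 (1/2) (m / 8)) = ε / (32 * K) * a4 (1/2) (m / 8) := by
      field_simp
    have e2 : C * Real.exp (-c * L) ≤ ε / (32 * K) := by
      rw [div_mul_eq_div_div, le_div_iff₀ hK0]
      have h3 : C / ε * Real.exp (-c * L) * K = (C * Real.exp (-c * L) * K) / ε := by ring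
      rw [h3, div_le_iff₀ hε] at hLK
      linarith
    have e3 : C * Real.exp (-c * L) * a4 (1/2) (m / 8) ≤ ε / (32 * K) * a4 (1/2) (m / 8) :=
      mul_le_mul_of_nonneg_right e2 ha8
    have e4 : 3 * ε / (32 * K) * a4 (1/2) (m / 8) = ε / (32 * K) * a4 (1/2) (m / 8) +
      ε / (32 * K) * a4 (1/2) (m / 8) + ε / (32 * K) * a4 (1/2) (m / 8) := by ring
    rw [e4]
    have s5 := s1.trans s2
    rw [mul_add, e1] at s4
    rw [add_mul] at s5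
    have e5 : (cd:ℝ) * (P / c') = cd / c' * P := by ring
    rw [e5] at s4
    linarith

theorem plow : Pool.Agent.W92.DP.St_P := by
  obtain ⟨c0, C0, hc0, hC0, hsh⟩ := Pool.Agent.H988R6.a4_sharp
  obtain ⟨L, M, K, hL, hM, hK, hone⟩ := one_scale_small (c0 / C0) (by positivity)
  have hL0 : (0:ℝ) < L := by
    have : 0 < L := by omega
    exact_mod_cast this
  refine ⟨L, M, c0 / 4 * (4 * L : ℝ) ^ (-(5/4) : ℝ) / K, hL, hM, by positivity, ?_⟩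
  intro r hr
  obtain ⟨m, hm⟩ : ∃ m : ℕ, m = M * r := ⟨_, rfl⟩
  have hm64 : 64 ≤ m := by
    rw [hm]
    exact hM.trans (Nat.le_mul_of_pos_right _ hr)
  have hm0 : (0:ℝ) < m := by
    have : 0 < m := by omega
    exact_mod_cast this
  have h1 := hone r hr true
  have h2 := hone r hr false
  rw [← hm] at h1 h2 ⊢
  obtain ⟨P1, hP1⟩ : ∃ P : ℝ, P = PQ (1/2) (boxE (16 * L * m))
    (fun F => H12S.Plus (4 * L * m) m (16 * L * m) (e0 true) ↑F) := ⟨_, rfl⟩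
  obtain ⟨P2, hP2⟩ : ∃ P : ℝ, P = PQ (1/2) (boxE (16 * L * m))
    (fun F => H12S.Plus (4 * L * m) m (16 * L * m) (e0 false) ↑F) := ⟨_, rfl⟩
  rw [← hP1] at h1
  rw [← hP2] at h2
  have h3 := (hsh (4 * L * m) (by
    have : 0 < 4 * L * m := by positivity
    omega)).1
  rw [a4_eq] at h3
  have h4 := (hsh (m / 8) (by omega)).2
  have hmp : 0 < (m:ℝ) ^ (-(5/4) : ℝ) := by positivity
  have e1 : ((4 * L * m : ℕ) : ℝ) ^ (-(5/4) : ℝ) =
      (4 * L : ℝ) ^ (-(5/4) : ℝ) * (m:ℝ) ^ (-(5/4) : ℝ) := by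
    push_cast
    rw [Real.mul_rpow (by positivity) (by positivity)]
  have e2 : ((m / 8 : ℕ) : ℝ) ^ (-(5/4) : ℝ) ≤
      (48:ℝ) ^ (5/4 : ℝ) * (m:ℝ) ^ (-(5/4) : ℝ) := by
    have g1 : (m:ℝ) / 48 ≤ ((m / 8 : ℕ) : ℝ) := by
      have g2 : m ≤ 48 * (m / 8) := by omega
      rw [div_le_iff₀ (by norm_num)]
      have : (m:ℝ) ≤ ((48 * (m / 8) : ℕ) : ℝ) := by exact_mod_cast g2
      push_cast at this
      linarith
    calc ((m / 8 : ℕ) : ℝ) ^ (-(5/4) : ℝ) ≤ ((m:ℝ) / 48) ^ (-(5/4) : ℝ) :=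
          Real.rpow_le_rpow_of_nonpos (by positivity) g1 (by norm_num)
      _ = (48:ℝ) ^ (5/4 : ℝ) * (m:ℝ) ^ (-(5/4) : ℝ) := by
          rw [Real.div_rpow hm0.le (by norm_num), Real.rpow_neg (by norm_num : (0:ℝ) ≤ 48)]
          field_simp
  have e3 : (192 * L : ℝ) ^ (5/4 : ℝ) = (48:ℝ) ^ (5/4 : ℝ) * (4 * L : ℝ) ^ (5/4 : ℝ) := by
    rw [← Real.mul_rpow (by norm_num) (by positivity)]
    congr 1
    ring
  have h5 : 3 * (c0 / C0) / (32 * (192 * L : ℝ) ^ (5/4 : ℝ)) * a4 (1/2) (m / 8) ≤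
      c0 / 4 * ((4 * L : ℝ) ^ (-(5/4) : ℝ) * (m:ℝ) ^ (-(5/4) : ℝ)) := by
    have k1 : 0 < (48:ℝ) ^ (5/4 : ℝ) := by positivity
    have k2 : 0 < (4 * L : ℝ) ^ (5/4 : ℝ) := by positivity
    calc 3 * (c0 / C0) / (32 * (192 * L : ℝ) ^ (5/4 : ℝ)) * a4 (1/2) (m / 8) ≤
          3 * (c0 / C0) / (32 * (192 * L : ℝ) ^ (5/4 : ℝ)) *
            (C0 * ((48:ℝ) ^ (5/4 : ℝ) * (m:ℝ) ^ (-(5/4) : ℝ))) := by
          apply mul_le_mul_of_nonneg_left _ (by positivity)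
          exact h4.trans (mul_le_mul_of_nonneg_left e2 hC0.le)
      _ = 3 / 32 * c0 * ((4 * L : ℝ) ^ (-(5/4) : ℝ) * (m:ℝ) ^ (-(5/4) : ℝ)) := by
          rw [e3, Real.rpow_neg (show (0:ℝ) ≤ 4 * L by positivity)]
          field_simp
      _ ≤ _ := by
          have k3 : 0 < (4 * L : ℝ) ^ (-(5/4) : ℝ) * (m:ℝ) ^ (-(5/4) : ℝ) := by positivity
          have k4 := mul_pos hc0 k3
          nlinarith
  rw [e1] at h3
  have h6 : c0 / 2 * ((4 * L : ℝ) ^ (-(5/4) : ℝ) * (m:ℝ) ^ (-(5/4) : ℝ)) ≤ K * (P1 + P2) := by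
    nlinarith
  obtain ⟨A, hA⟩ : ∃ A : ℝ, A = (4 * L : ℝ) ^ (-(5/4) : ℝ) * (m:ℝ) ^ (-(5/4) : ℝ) := ⟨_, rfl⟩
  rw [← hA] at h6
  have h7 : c0 / 4 * (4 * L : ℝ) ^ (-(5/4) : ℝ) / K * (m:ℝ) ^ (-(5/4) : ℝ) = c0 / 4 * A / K := by
    rw [hA]; ring
  rw [h7]
  rcases le_total (c0 / 4 * A) (K * P1) with h8 | h8
  · refine ⟨true, ?_⟩
    rw [← hP1, div_le_iff₀ hK]
    linarith
  · refine ⟨false, ?_⟩
    rw [← hP2, div_le_iff₀ hK]
    linarith

end Pool.Agent.W598.DP
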