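import Mathlib

open UpperHalfPlane Filter Topology Set
open scoped MatrixGroups

namespace Pool.Agent.W598

/-- A family of pairwise disjoint closed half discs centred at real points. -/
structure Cfg where
  x : ℕ → ℝ
  r : ℕ → ℝ
  pos : ∀ j, 0 < r j
  sep : ∀ i j, i ≠ j → r i + r j < |x i - x j|

namespace Cfg

variable (c : Cfg)

/-- The half-turn about the point `x j + i r j`, as a matrix. -/
noncomputable def mat (j : ℕ) : SL(2, ℝ) :=
  ⟨!![c.x j / c.r j, -(c.x j ^ 2 + c.r j ^ 2) / c.r j; 1 / c.r j, -c.x j / c.r j], by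
    have := (c.pos j).ne'
    rw [Matrix.det_fin_two_of]
    field_simp
    ring⟩

/-- distance to the centre -/
noncomputable def q (j : ℕ) (z : ℍ) : ℝ := ‖(z : ℂ) - (c.x j : ℂ)‖

lemma q_pos (j : ℕ) (z : ℍ) : 0 < c.q j z := by
  unfold q
  rw [norm_pos_iff]
  intro h
  have := congrArg Complex.im h
  simp at this
  exact absurd this z.im_ne_zero

lemma q_sq (j : ℕ) (z : ℍ) : c.q j z ^ 2 = (z.re - c.x j) ^ 2 + z.im ^ 2 := by
  unfold q
  rw [← Complex.normSq_eq_norm_sq, Complex.normSq_apply]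
  simp
  ring

lemma im_le_q (j : ℕ) (z : ℍ) : z.im ≤ c.q j z := by
  have h := c.q_sq j z
  have h1 := c.q_pos j z
  have h2 := z.im_pos
  nlinarith [sq_nonneg (z.re - c.x j)]

lemma coe_mat_smul (j : ℕ) (z : ℍ) :
    ((c.mat j • z : ℍ) : ℂ) = c.x j - (c.r j : ℂ) ^ 2 / ((z : ℂ) - c.x j) := by
  have h0 : (c.r j : ℂ) ≠ 0 := by exact_mod_cast (c.pos j).ne'
  have h1 : (z : ℂ) - c.x j ≠ 0 := norm_pos_iff.1 (c.q_pos j z)
  rw [specialLinearGroup_apply]
  simp only [mat, Matrix.of_apply, Matrix.cons_val', Matrix.cons_val_zero, Matrix.cons_val_one,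
    Matrix.cons_val_fin_one, Algebra.algebraMap_self, RingHom.id_apply]
  push_cast
  have h2 : (1 / (c.r j : ℂ)) * z + -c.x j / c.r j ≠ 0 := by
    have : (1 / (c.r j : ℂ)) * z + -c.x j / c.r j = ((z : ℂ) - c.x j) / c.r j := by
      field_simp
      ring
    rw [this]
    exact div_ne_zero h1 h0
  rw [div_eq_iff h2]
  field_simp
  ring

lemma q_mat_smul (j : ℕ) (z : ℍ) : c.q j (c.mat j • z) = c.r j ^ 2 / c.q j z := by
  have h : ((c.mat j • z : ℍ) : ℂ) - c.x j = -((c.r j : ℂ) ^ 2 / ((z : ℂ) - c.x j)) := by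
    rw [coe_mat_smul]; ring
  unfold q
  rw [h, norm_neg, norm_div, norm_pow, Complex.norm_real, Real.norm_of_nonneg (c.pos j).le]

lemma mat_smul_mat_smul (j : ℕ) (z : ℍ) : c.mat j • c.mat j • z = z := by
  ext1
  rw [coe_mat_smul, coe_mat_smul]
  have h0 : (c.r j : ℂ) ≠ 0 := by exact_mod_cast (c.pos j).ne'
  have h1 : (z : ℂ) - c.x j ≠ 0 := norm_pos_iff.1 (c.q_pos j z)
  have h2 : (c.x j : ℂ) - (c.r j : ℂ) ^ 2 / ((z : ℂ) - c.x j) - c.x j =
    -((c.r j : ℂ) ^ 2 / ((z : ℂ) - c.x j)) := by ring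
  rw [h2]
  field_simp
  ring

lemma im_mat_smul (j : ℕ) (z : ℍ) : (c.mat j • z).im = c.r j ^ 2 * z.im / c.q j z ^ 2 := by
  have h := c.coe_mat_smul j z
  have h2 := congrArg Complex.im h
  rw [UpperHalfPlane.coe_im] at h2
  rw [h2]
  have h3 : c.q j z ^ 2 = Complex.normSq ((z : ℂ) - c.x j) := by
    unfold q; rw [← Complex.normSq_eq_norm_sq]
  rw [h3]
  have h4 : ((c.r j : ℂ) ^ 2) = ((c.r j ^ 2 : ℝ) : ℂ) := by push_cast; rfl
  rw [h4, Complex.sub_im, Complex.div_im]
  simp only [Complex.ofReal_re, Complex.ofReal_im, Complex.sub_im, Complex.sub_re,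
    UpperHalfPlane.coe_im]
  ring

/-- the action of a word -/
noncomputable def act : List ℕ → ℍ → ℍ
  | [], z => z
  | j :: l, z => c.mat j • act l z

@[simp] lemma act_nil (z : ℍ) : c.act [] z = z := rfl
@[simp] lemma act_cons (j : ℕ) (l : List ℕ) (z : ℍ) : c.act (j :: l) z = c.mat j • c.act l z := rfl

lemma act_append (l m : List ℕ) (z : ℍ) : c.act (l ++ m) z = c.act l (c.act m z) := by
  induction l with
  | nil => rfl
  | cons j l ih => simp [ih]

lemma act_reverse_act (l : List ℕ) (z : ℍ) : c.act l.reverse (c.act l z) = z := by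
  induction l with
  | nil => rfl
  | cons j l ih =>
    rw [List.reverse_cons, act_append]
    simp only [act_cons, act_nil, mat_smul_mat_smul, ih]

lemma act_act_reverse (l : List ℕ) (z : ℍ) : c.act l (c.act l.reverse z) = z := by
  have := c.act_reverse_act l.reverse z
  rwa [List.reverse_reverse] at this

lemma dist_act (l : List ℕ) (z w : ℍ) : dist (c.act l z) (c.act l w) = dist z w := by
  induction l with
  | nil => rfl
  | cons j l ih => simp only [act_cons]; rw [dist_smul, ih]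

lemma continuous_act (l : List ℕ) : Continuous (c.act l) := by
  induction l with
  | nil => exact continuous_id
  | cons j l ih => exact (continuous_const_smul (c.mat j)).comp ih

/-- the fundamental domain -/
def dom : Set ℍ := {z | ∀ j, c.r j ≤ c.q j z}

lemma continuous_q (j : ℕ) : Continuous (c.q j) := by
  unfold q
  exact (UpperHalfPlane.continuous_coe.sub continuous_const).norm

lemma isClosed_dom : IsClosed c.dom := by
  have : c.dom = ⋂ j, {z | c.r j ≤ c.q j z} := by ext z; simp [dom]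
  rw [this]
  exact isClosed_iInter fun j => isClosed_le continuous_const (c.continuous_q j)

/-- reduced words -/
def Red (l : List ℕ) : Prop := List.IsChain (· ≠ ·) l

/-- points near which the word `l` may be applied: outside the disc of the last letter -/
def Ok (l : List ℕ) (z : ℍ) : Prop := ∀ j, l.getLast? = some j → c.r j ≤ c.q j z

lemma ok_of_dom (l : List ℕ) {z : ℍ} (hz : z ∈ c.dom) : c.Ok l z := fun j _ => hz j

/-- a point in the closed disc `j` is far from the centre of another disc -/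
lemma far {i j : ℕ} {z : ℍ} (hz : c.q i z ≤ c.r i) :
    |c.x i - c.x j| - c.r i ≤ c.q j z := by
  have h1 : |c.x i - c.x j| ≤ c.q i z + c.q j z := by
    unfold q
    have h2 : ((c.x i - c.x j : ℝ) : ℂ) = ((z : ℂ) - c.x j) - ((z : ℂ) - c.x i) := by
      push_cast; ring
    calc |c.x i - c.x j| = ‖((c.x i - c.x j : ℝ) : ℂ)‖ := by
          rw [Complex.norm_real]; rfl
      _ ≤ ‖(z : ℂ) - c.x j‖ + ‖(z : ℂ) - c.x i‖ := by rw [h2]; exact norm_sub_le _ _
      _ = _ := by ring
  linarith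

lemma lt_q {i j : ℕ} (h : i ≠ j) {z : ℍ} (hz : c.q i z ≤ c.r i) : c.r j < c.q j z := by
  have := c.far (j := j) hz
  have := c.sep i j h
  linarith

lemma q_mat_le {j : ℕ} {z : ℍ} (h : c.r j ≤ c.q j z) : c.q j (c.mat j • z) ≤ c.r j := by
  rw [q_mat_smul, div_le_iff₀ (c.q_pos j z)]
  have := c.pos j
  nlinarith

lemma q_mat_lt {j : ℕ} {z : ℍ} (h : c.r j < c.q j z) : c.q j (c.mat j • z) < c.r j := by
  rw [q_mat_smul, div_lt_iff₀ (c.q_pos j z)]
  have := c.pos j
  nlinarith

lemma lt_q_mat {j : ℕ} {z : ℍ} (h : c.q j z < c.r j) : c.r j < c.q j (c.mat j • z) := by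
  rw [q_mat_smul, lt_div_iff₀ (c.q_pos j z)]
  have := c.pos j
  nlinarith

/-- ping-pong -/
lemma q_act_le (j : ℕ) (l : List ℕ) (hl : Red (j :: l)) {z : ℍ} (hz : c.Ok (j :: l) z) :
    c.q j (c.act (j :: l) z) ≤ c.r j := by
  induction l generalizing j with
  | nil =>
    apply c.q_mat_le
    exact hz j (by simp)
  | cons m l ih =>
    have h1 : c.q m (c.act (m :: l) z) ≤ c.r m := by
      apply ih m
      · exact (List.isChain_cons_cons.1 hl).2
      · intro k hk
        exact hz k (by rw [List.getLast?_cons_cons]; exact hk)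
    exact (c.q_mat_lt (c.lt_q (List.isChain_cons_cons.1 hl).1.symm h1)).le

lemma q_act_lt (j m : ℕ) (l : List ℕ) (hl : Red (j :: m :: l)) {z : ℍ}
    (hz : c.Ok (j :: m :: l) z) :
    c.q j (c.act (j :: m :: l) z) < c.r j := by
  have h1 : c.q m (c.act (m :: l) z) ≤ c.r m := by
    apply c.q_act_le m l
    · exact (List.isChain_cons_cons.1 hl).2
    · intro k hk
      exact hz k (by rw [List.getLast?_cons_cons]; exact hk)
  exact c.q_mat_lt (c.lt_q (List.isChain_cons_cons.1 hl).1.symm h1)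

lemma exists_cancel (l : List ℕ) (h : ¬ Red l) : ∃ l₁ j l₂, l = l₁ ++ j :: j :: l₂ := by
  induction l with
  | nil => exact absurd List.isChain_nil h
  | cons a l ih =>
    cases l with
    | nil => exact absurd (List.isChain_singleton a) h
    | cons b l =>
      by_cases hab : a = b
      · subst hab
        exact ⟨[], a, l, rfl⟩
      · have : ¬ Red (b :: l) := fun h2 => h (List.isChain_cons_cons.2 ⟨hab, h2⟩)
        obtain ⟨l₁, j, l₂, h3⟩ := ih this
        exact ⟨a :: l₁, j, l₂, by rw [h3]; rfl⟩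

lemma act_cancel (l₁ : List ℕ) (j : ℕ) (l₂ : List ℕ) (z : ℍ) :
    c.act (l₁ ++ j :: j :: l₂) z = c.act (l₁ ++ l₂) z := by
  rw [act_append, act_append]
  simp only [act_cons, mat_smul_mat_smul]

end Cfg

end Pool.Agent.W598
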