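import Pool.Agent.W598.Group

open UpperHalfPlane Filter Topology Set
open scoped MatrixGroups

namespace Pool.Agent.W598

/-- The discs are dense in the complement of the discs, and unbounded. -/
structure DenseCfg (c : Cfg) : Prop where
  dens : ∀ f : ℝ, (∀ j, c.r j ≤ |f - c.x j|) → ∀ ε > 0, ∃ k, |c.x k - f| < ε ∧ c.r k < ε
  unb : ∀ R : ℝ, ∃ k, R < |c.x k|

lemma act_eq_smul (c : Cfg) (l : List ℕ) (z : ℍ) : c.act l z = (l.map c.mat).prod • z := by
  rw [← c.wd_apply]; rfl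

/-- membership of the image in a Euclidean ball, as a quadratic inequality -/
lemma smul_near_iff (g : SL(2, ℝ)) (x ε : ℝ) (hε : 0 < ε) : ∃ α β δ : ℝ, ∀ z : ℍ,
    (‖((g • z : ℍ) : ℂ) - x‖ < ε ↔ α * (z.re ^ 2 + z.im ^ 2) + 2 * β * z.re + δ < 0) := by
  set a := g 0 0 with ha
  set b := g 0 1 with hb
  set cc := g 1 0 with hcc
  set d := g 1 1 with hd
  refine ⟨(a - x * cc) ^ 2 - ε ^ 2 * cc ^ 2, (a - x * cc) * (b - x * d) - ε ^ 2 * cc * d,
    (b - x * d) ^ 2 - ε ^ 2 * d ^ 2, fun z => ?_⟩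
  have hden : (cc : ℂ) * z + d ≠ 0 := by
    have := UpperHalfPlane.denom_ne_zero (g : GL (Fin 2) ℝ) z
    simpa [UpperHalfPlane.denom] using this
  have h1 : ((g • z : ℍ) : ℂ) = (a * z + b) / (cc * z + d) := by
    rw [specialLinearGroup_apply]
    simp [ha, hb, hcc, hd]
  have h2 : ((g • z : ℍ) : ℂ) - x = ((a - x * cc : ℝ) * z + (b - x * d : ℝ)) / (cc * z + d) := by
    rw [h1, eq_div_iff hden, sub_mul, div_mul_cancel₀ _ hden]
    push_cast
    ring
  have hpos : 0 < ‖(cc : ℂ) * z + d‖ := norm_pos_iff.2 hden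
  rw [h2, norm_div, div_lt_iff₀ hpos]
  have h3 : ∀ (p q : ℝ), ‖(p : ℂ) * z + q‖ ^ 2 = p ^ 2 * (z.re ^ 2 + z.im ^ 2) +
      2 * (p * q) * z.re + q ^ 2 := by
    intro p q
    rw [← Complex.normSq_eq_norm_sq, Complex.normSq_apply]
    simp
    ring
  have h4 := h3 (a - x * cc) (b - x * d)
  have h5 := h3 cc d
  constructor
  · intro h
    have h6 : ‖((a - x * cc : ℝ) : ℂ) * z + (b - x * d : ℝ)‖ ^ 2 < (ε * ‖(cc : ℂ) * z + d‖) ^ 2 := by
      have := norm_nonneg (((a - x * cc : ℝ) : ℂ) * z + (b - x * d : ℝ))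
      gcongr
    rw [mul_pow, h4, h5] at h6
    nlinarith
  · intro h
    by_contra hcon
    push Not at hcon
    have h6 : (ε * ‖(cc : ℂ) * z + d‖) ^ 2 ≤ ‖((a - x * cc : ℝ) : ℂ) * z + (b - x * d : ℝ)‖ ^ 2 := by
      gcongr
    rw [mul_pow, h4, h5] at h6
    nlinarith

lemma re_of_q_le {c : Cfg} {k : ℕ} {z : ℍ} (h : c.q k z ≤ c.r k) :
    |z.re - c.x k| ≤ c.r k ∧ z.im ≤ c.r k := by
  have h1 := c.q_sq k z
  have h2 := c.q_pos k z
  refine ⟨?_, (c.im_le_q k z).trans h⟩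
  apply abs_le_of_sq_le_sq _ (c.pos k).le
  nlinarith [z.im_pos]

lemma near {c : Cfg} (hr : ∀ j, c.r j ≤ 1) (D : DenseCfg c) (l : List ℕ) {z₀ : ℍ}
    (hz₀ : z₀ ∈ c.dom) (x ε : ℝ) (hε : 0 < ε) (h : ‖((c.act l z₀ : ℍ) : ℂ) - x‖ < ε) :
    ∃ k, ∀ z : ℍ, c.q k z ≤ c.r k → ‖((c.act l z : ℍ) : ℂ) - x‖ < ε := by
  obtain ⟨α, β, δ, H⟩ := smul_near_iff (l.map c.mat).prod x ε hε
  simp only [← act_eq_smul] at H
  have h0 := (H z₀).1 h
  rcases lt_or_ge α 0 with hα | hα
  · obtain ⟨k, hk⟩ := D.unb ((2 * |β| + |δ| + 1) / |α| + 2)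
    refine ⟨k, fun z hz => (H z).2 ?_⟩
    obtain ⟨h1, h2⟩ := re_of_q_le hz
    have hrk := hr k
    have hre : (2 * |β| + |δ| + 1) / |α| + 1 < |z.re| := by
      have : |c.x k| ≤ |z.re| + |z.re - c.x k| := by
        have : c.x k = z.re - (z.re - c.x k) := by ring
        calc |c.x k| = |z.re - (z.re - c.x k)| := by rw [← this]
          _ ≤ _ := abs_sub _ _
      linarith
    have hα' : 0 < |α| := abs_pos.2 hα.ne
    set t := |z.re| with ht
    have ht2 : z.re ^ 2 = t ^ 2 := (sq_abs _).symm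
    have hq : 0 ≤ (2 * |β| + |δ| + 1) / |α| := by positivity
    have ht1 : 1 < t := by linarith
    have h3 : 2 * |β| + |δ| + 1 < |α| * t := by
      have h4 : (2 * |β| + |δ| + 1) / |α| < t := by linarith
      rw [div_lt_iff₀ hα'] at h4
      linarith
    rw [abs_of_neg hα] at h3
    have h5 : 2 * β * z.re ≤ 2 * |β| * t := by
      have : β * z.re ≤ |β| * t := by
        rw [ht, ← abs_mul]; exact le_abs_self _
      linarith
    have h6 : δ ≤ |δ| * t := by
      have := le_abs_self δ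
      have := abs_nonneg δ
      nlinarith
    have h7 := z.im_pos
    rw [ht2]
    have h8 : α * z.im ^ 2 ≤ 0 := by
      have := sq_nonneg z.im
      nlinarith
    nlinarith
  · -- a real point of the free boundary satisfying the inequality
    have key : ∃ f : ℝ, (∀ j, c.r j ≤ |f - c.x j|) ∧ α * f ^ 2 + 2 * β * f + δ < 0 := by
      by_cases hu : ∀ j, c.r j ≤ |z₀.re - c.x j|
      · refine ⟨z₀.re, hu, ?_⟩
        have : 0 ≤ α * z₀.im ^ 2 := by positivity
        nlinarith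
      · push Not at hu
        obtain ⟨j, hj⟩ := hu
        have hend : ∀ e : ℝ, |e - c.x j| = c.r j → ∀ i, c.r i ≤ |e - c.x i| := by
          intro e he i
          by_cases hij : i = j
          · subst hij; exact he.ge
          · have h1 := c.sep i j hij
            have h2 : |c.x i - c.x j| ≤ |e - c.x i| + |e - c.x j| := by
              have : c.x i - c.x j = (e - c.x j) - (e - c.x i) := by ring
              calc |c.x i - c.x j| = |(e - c.x j) - (e - c.x i)| := by rw [← this]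
                _ ≤ |e - c.x j| + |e - c.x i| := abs_sub _ _
                _ = _ := by ring
            rw [he] at h2
            linarith
        have hrj := c.pos j
        have hq : c.r j ≤ c.q j z₀ := hz₀ j
        have hq2 := c.q_sq j z₀
        have h1 : c.r j ^ 2 ≤ (z₀.re - c.x j) ^ 2 + z₀.im ^ 2 := by
          rw [← hq2]; gcongr
        -- the affine function on the circle
        have h2 : α * (c.r j ^ 2 - c.x j ^ 2 + 2 * c.x j * z₀.re) + 2 * β * z₀.re + δ < 0 := by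
          have : α * (c.r j ^ 2 - c.x j ^ 2 + 2 * c.x j * z₀.re) ≤
              α * (z₀.re ^ 2 + z₀.im ^ 2) := by
            apply mul_le_mul_of_nonneg_left _ hα
            nlinarith
          linarith
        have hlt := abs_lt.1 hj
        by_cases hslope : 0 ≤ α * c.x j + β
        · refine ⟨c.x j - c.r j, hend _ (by
            rw [show c.x j - c.r j - c.x j = -c.r j by ring, abs_neg, abs_of_pos hrj]), ?_⟩
          have : (α * c.x j + β) * (c.x j - c.r j) ≤ (α * c.x j + β) * z₀.re :=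
            mul_le_mul_of_nonneg_left (by linarith [hlt.1]) hslope
          nlinarith
        · push Not at hslope
          refine ⟨c.x j + c.r j, hend _ (by
            rw [show c.x j + c.r j - c.x j = c.r j by ring, abs_of_pos hrj]), ?_⟩
          have : (α * c.x j + β) * (c.x j + c.r j) ≤ (α * c.x j + β) * z₀.re :=
            mul_le_mul_of_nonpos_left (by linarith [hlt.2]) hslope.le
          nlinarith
    obtain ⟨f, hf, hneg⟩ := key
    have hcont : Continuous fun p : ℝ × ℝ => α * (p.1 ^ 2 + p.2 ^ 2) + 2 * β * p.1 + δ := by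
      fun_prop
    have hev : ∀ᶠ p : ℝ × ℝ in 𝓝 (f, 0), α * (p.1 ^ 2 + p.2 ^ 2) + 2 * β * p.1 + δ < 0 := by
      apply hcont.continuousAt.eventually_lt continuousAt_const
      simpa using hneg
    obtain ⟨η, hη, hball⟩ := Metric.eventually_nhds_iff.1 hev
    obtain ⟨k, hk1, hk2⟩ := D.dens f hf (η / 2) (by linarith)
    refine ⟨k, fun z hz => (H z).2 ?_⟩
    obtain ⟨h1, h2⟩ := re_of_q_le hz
    apply hball (y := (z.re, z.im))
    rw [Prod.dist_eq, max_lt_iff]
    constructor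
    · rw [Real.dist_eq]
      have : |z.re - f| ≤ |z.re - c.x k| + |c.x k - f| := abs_sub_le _ _ _
      show |z.re - f| < η
      linarith
    · rw [Real.dist_eq]
      show |z.im - 0| < η
      rw [sub_zero, abs_of_pos z.im_pos]
      linarith

/-- parity adjustment -/
lemma near_grp {c : Cfg} {s : ℝ} {κ : ℕ → ℝ} (G : Good c s κ) (z : ℍ) (l : List ℕ)
    (k : ℕ) : ∃ γ ∈ c.grp, ∃ y : ℍ, c.q k y ≤ c.r k ∧ γ z = c.act l y := by
  obtain ⟨p, -, z₀, hz₀, rfl⟩ := G.cover z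
  by_cases hpar : Even (l ++ (k :: p.reverse)).length
  · refine ⟨c.wd (l ++ (k :: p.reverse)), c.wd_mem hpar, c.mat k • z₀, c.q_mat_le (hz₀ k), ?_⟩
    rw [c.wd_apply, c.act_append, c.act_cons, c.act_reverse_act]
  · obtain ⟨m, hm⟩ : ∃ m, m ≠ k := ⟨k + 1, by omega⟩
    have hpar' : Even (l ++ (k :: m :: p.reverse)).length := by
      simp only [List.length_append, List.length_cons, List.length_reverse] at hpar ⊢
      rw [Nat.not_even_iff_odd] at hpar
      obtain ⟨t, ht⟩ := hpar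
      exact ⟨t + 1, by omega⟩
    refine ⟨c.wd (l ++ (k :: m :: p.reverse)), c.wd_mem hpar', c.mat k • c.mat m • z₀,
      c.q_mat_le (c.lt_q hm (c.q_mat_le (hz₀ m))).le, ?_⟩
    rw [c.wd_apply, c.act_append, c.act_cons, c.act_cons, c.act_reverse_act]

lemma orbit_near_real {c : Cfg} {s : ℝ} {κ : ℕ → ℝ} (G : Good c s κ) (D : DenseCfg c) (z : ℍ)
    (x ε : ℝ) (hε : 0 < ε) : ∃ γ ∈ c.grp, ‖((γ z : ℍ) : ℂ) - x‖ < ε := by
  have hy : ∃ y : ℍ, ‖(y : ℂ) - x‖ < ε := by
    refine ⟨⟨⟨x, ε / 2⟩, by simpa using hε⟩, ?_⟩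
    have : ((⟨⟨x, ε / 2⟩, by simpa using hε⟩ : ℍ) : ℂ) - x = ((ε / 2 : ℝ) : ℂ) * Complex.I := by
      apply Complex.ext <;> simp
    rw [this, norm_mul, Complex.norm_I, mul_one, Complex.norm_real, Real.norm_of_nonneg (by linarith)]
    linarith
  obtain ⟨y, hy⟩ := hy
  obtain ⟨l, -, z₀, hz₀, rfl⟩ := G.cover y
  obtain ⟨k, hk⟩ := near G.rle D l hz₀ x ε hε hy
  obtain ⟨γ, hγ, w, hw, hw2⟩ := near_grp G z l k
  exact ⟨γ, hγ, by rw [hw2]; exact hk w hw⟩

lemma orbit_near_infty {c : Cfg} {s : ℝ} {κ : ℕ → ℝ} (G : Good c s κ) (D : DenseCfg c) (z : ℍ)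
    (R : ℝ) : ∃ γ ∈ c.grp, R < ‖((γ z : ℍ) : ℂ)‖ := by
  obtain ⟨k, hk⟩ := D.unb (R + 1)
  obtain ⟨γ, hγ, w, hw, hw2⟩ := near_grp G z [] k
  refine ⟨γ, hγ, ?_⟩
  rw [hw2, c.act_nil]
  have h1 : ‖(c.x k : ℂ)‖ ≤ ‖(w : ℂ)‖ + ‖(w : ℂ) - c.x k‖ := by
    have : (c.x k : ℂ) = w - (w - c.x k) := by ring
    calc ‖(c.x k : ℂ)‖ = ‖(w : ℂ) - (w - c.x k)‖ := by rw [← this]
      _ ≤ _ := norm_sub_le _ _
  rw [Complex.norm_real, Real.norm_eq_abs] at h1
  have h2 : ‖(w : ℂ) - c.x k‖ ≤ c.r k := hw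
  have h3 := G.rle k
  linarith

lemma isFirstKind {c : Cfg} {s : ℝ} {κ : ℕ → ℝ} (G : Good c s κ) (D : DenseCfg c) :
    IsFirstKind c.grp := by
  intro z ξ hξ
  rw [accPt_iff_nhds]
  rcases hξ with rfl | ⟨x, rfl⟩
  · intro U hU
    rw [OnePoint.nhds_infty_eq] at hU
    have h1 : (fun z : ℂ => (z : OnePoint ℂ)) ⁻¹' U ∈ coclosedCompact ℂ := (mem_sup.1 hU).1
    rw [coclosedCompact_eq_cocompact, ← Metric.cobounded_eq_cocompact] at h1
    obtain ⟨R, -, hR⟩ := (Metric.hasBasis_cobounded_compl_closedBall (0 : ℂ)).mem_iff.1 h1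
    obtain ⟨γ, hγ, h2⟩ := orbit_near_infty G D z R
    refine ⟨((γ z : ℍ) : ℂ), ⟨?_, γ, hγ, rfl⟩, OnePoint.coe_ne_infty _⟩
    apply hR
    simpa using h2
  · intro U hU
    rw [OnePoint.nhds_coe_eq] at hU
    have h1 : (fun z : ℂ => (z : OnePoint ℂ)) ⁻¹' U ∈ 𝓝 (x : ℂ) := hU
    obtain ⟨ε, hε, hball⟩ := Metric.mem_nhds_iff.1 h1
    obtain ⟨γ, hγ, h2⟩ := orbit_near_real G D z x ε hε
    refine ⟨((γ z : ℍ) : ℂ), ⟨?_, γ, hγ, rfl⟩, ?_⟩
    · apply hball
      rw [Metric.mem_ball, dist_eq_norm]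
      exact h2
    · intro h
      have h3 : ((γ z : ℍ) : ℂ) = (x : ℂ) := OnePoint.coe_injective h
      have h4 := congrArg Complex.im h3
      simp at h4
      exact absurd h4 (γ z).im_ne_zero

/-! ### infinite generation -/

/-- words in the first `N` letters -/
noncomputable def Cfg.sub (c : Cfg) (N : ℕ) : Subgroup (ℍ ≃ₜ ℍ) where
  carrier := {g | ∃ l : List ℕ, (∀ j ∈ l, j < N) ∧ ∀ z, g z = c.act l z}
  one_mem' := ⟨[], by simp, fun z => rfl⟩
  mul_mem' := by
    rintro g h ⟨l, hl, hl2⟩ ⟨m, hm, hm2⟩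
    refine ⟨l ++ m, ?_, fun z => ?_⟩
    · intro j hj
      rcases List.mem_append.1 hj with h | h
      · exact hl j h
      · exact hm j h
    · show g (h z) = _
      rw [hl2, hm2, c.act_append]
  inv_mem' := by
    rintro g ⟨l, hl, hl2⟩
    refine ⟨l.reverse, fun j hj => hl j (List.mem_reverse.1 hj), fun z => ?_⟩
    show g.symm z = _
    rw [Homeomorph.symm_apply_eq, hl2, c.act_act_reverse]

lemma not_fg (c : Cfg) (hr : ∀ j, c.r j ≤ 1) : ¬ c.grp.FG := by
  intro hfg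
  obtain ⟨S, hS⟩ := hfg
  have h1 : ∀ g : ℍ ≃ₜ ℍ, g ∈ S → ∃ N, g ∈ c.sub N := by
    intro g hg
    have : g ∈ c.grp := by rw [← hS]; exact Subgroup.subset_closure hg
    obtain ⟨l, -, h⟩ := this
    obtain ⟨N, hN⟩ : ∃ N, ∀ j ∈ l, j < N := by
      refine ⟨l.sum + 1, fun j hj => ?_⟩
      have := List.single_le_sum (fun _ _ => Nat.zero_le _) j hj
      omega
    exact ⟨N, l, hN, h⟩
  choose! N hN using h1
  set M := ∑ g ∈ S, N g with hM
  have h2 : c.grp ≤ c.sub M := by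
    rw [← hS, Subgroup.closure_le]
    intro g hg
    obtain ⟨l, hl, h⟩ := hN g hg
    refine ⟨l, fun j hj => (hl j hj).trans_le ?_, h⟩
    exact Finset.single_le_sum (fun _ _ => Nat.zero_le _) hg
  have h3 : c.wd [0, M + 1] ∈ c.sub M := h2 (c.wd_mem (by simp))
  obtain ⟨l, hl, h⟩ := h3
  obtain ⟨m, hm, h4, h5, -⟩ := c.exists_red _ l rfl
  have h6 : c.act [0, M + 1] top2 = c.act m top2 := by
    rw [← c.wd_apply, h, h4]
  have h7 := c.red_unique (lt_q_top2 c hr) _ _ (by unfold Cfg.Red; simp) hm h6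
  have h8 : M + 1 ∈ m := by rw [← h7]; simp
  have := hl _ (h5 _ h8)
  omega

/-! ### discreteness -/

lemma moebius_eq_one {g : SL(2, ℝ)} (h : moebius g = 1) : g = 1 ∨ g = -1 := by
  have h1 : ∀ z : ℍ, g • z = z := fun z => by
    have := congrArg (fun f : ℍ ≃ₜ ℍ => f z) h
    exact this
  have hdet : g 0 0 * g 1 1 - g 0 1 * g 1 0 = 1 := by
    have := g.det_coe
    rwa [Matrix.det_fin_two] at this
  have key : ∀ z : ℍ, ((g 0 0 : ℝ) : ℂ) * z + (g 0 1 : ℝ) = z * ((g 1 0 : ℝ) * z + (g 1 1 : ℝ)) := by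
    intro z
    have hden : ((g 1 0 : ℝ) : ℂ) * z + (g 1 1 : ℝ) ≠ 0 := by
      have := UpperHalfPlane.denom_ne_zero (g : GL (Fin 2) ℝ) z
      simpa [UpperHalfPlane.denom] using this
    have h2 := congrArg (fun z : ℍ => (z : ℂ)) (h1 z)
    simp only [specialLinearGroup_apply] at h2
    simp only [Algebra.algebraMap_self, RingHom.id_apply] at h2
    rw [div_eq_iff hden] at h2
    exact h2
  have k1 := key I
  have k2 := key top2
  have e2 : (top2 : ℂ) = 2 * Complex.I := rfl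
  rw [e2] at k2
  have e1 : ((I : ℍ) : ℂ) = Complex.I := rfl
  rw [e1] at k1
  have a1 := congrArg Complex.re k1
  have a2 := congrArg Complex.im k1
  have b1 := congrArg Complex.re k2
  simp at a1 a2 b1
  have hc : g 1 0 = 0 := by linarith
  have hb : g 0 1 = 0 := by linarith
  rw [hc, hb, ← a2] at hdet
  have ha : (g 0 0 - 1) * (g 0 0 + 1) = 0 := by linarith
  rcases mul_eq_zero.1 ha with h | h
  · left
    have h00 : g 0 0 = 1 := by linarith
    ext i j
    fin_cases i <;> fin_cases j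
    · simpa using h00
    · simpa using hb
    · simpa using hc
    · show g 1 1 = _
      rw [← a2, h00]; simp
  · right
    have h00 : g 0 0 = -1 := by linarith
    ext i j
    fin_cases i <;> fin_cases j
    · simpa using h00
    · simpa using hb
    · simpa using hc
    · show g 1 1 = _
      rw [← a2, h00]; simp

lemma I_mem_dom {c : Cfg} (hr : ∀ j, c.r j ≤ 1) : I ∈ c.dom := fun j => (hr j).trans (one_le_q_I c j)

lemma exists_nhds {c : Cfg} {s : ℝ} {κ : ℕ → ℝ} (G : Good c s κ) :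
    ∃ U : Set ℍ, IsOpen U ∧ I ∈ U ∧ ∀ γ ∈ c.grp, γ I ∈ U → γ = 1 := by
  have hfin := G.finite_tiles (show (0 : ℝ) < 1 / 2 by norm_num)
  set F := {l : List ℕ | Cfg.Red l ∧ ∃ z ∈ c.dom, 1 / 2 ≤ (c.act l z).im} with hF
  set A := (fun l => c.act l I) '' F \ {I} with hA
  have hAfin : A.Finite := (hfin.image _).subset sdiff_subset
  refine ⟨Aᶜ ∩ {z | 1 / 2 < z.im}, ?_, ⟨?_, ?_⟩, ?_⟩
  · exact hAfin.isClosed.isOpen_compl.inter (isOpen_lt continuous_const UpperHalfPlane.continuous_im)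
  · intro h; exact h.2 rfl
  · show 1 / 2 < (I : ℍ).im
    rw [UpperHalfPlane.I_im]; norm_num
  · rintro γ hγ ⟨h1, h2⟩
    have h2' : 1 / 2 < (γ I).im := h2
    obtain ⟨l, hl, -, hact⟩ := c.grp_red hγ
    have hmem : l ∈ F := ⟨hl, I, I_mem_dom G.rle, by rw [← hact]; exact h2'.le⟩
    apply c.grp_free G hγ (z := I)
    by_contra hne
    exact h1 ⟨⟨l, hmem, (hact I).symm⟩, hne⟩

lemma isFuchsian {c : Cfg} {s : ℝ} {κ : ℕ → ℝ} (G : Good c s κ) : IsFuchsian c.grp := by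
  refine ⟨c.grp_le, ?_⟩
  obtain ⟨U, hU, hIU, hU1⟩ := exists_nhds G
  apply discreteTopology_of_isOpen_singleton_one
  have hset : ({1} : Set (c.grp.comap moebius)) =
      {g : c.grp.comap moebius | (g : SL(2, ℝ)) • I ∈ U ∧ 0 < (g : SL(2, ℝ)) 0 0} := by
    ext g
    simp only [mem_singleton_iff, mem_ofPred_eq]
    constructor
    · rintro rfl
      simp [hIU]
    · rintro ⟨h1, h2⟩
      have h3 : moebius (g : SL(2, ℝ)) = 1 := hU1 _ g.2 h1
      rcases moebius_eq_one h3 with h | h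
      · exact Subtype.ext h
      · rw [h] at h2
        simp at h2
        exact absurd h2 (by norm_num)
  rw [hset]
  have c1 : Continuous fun g : (c.grp.comap moebius) => (g : SL(2, ℝ)) • (I : ℍ) :=
    continuous_subtype_val.smul continuous_const
  have c2 : Continuous fun g : (c.grp.comap moebius) => (g : SL(2, ℝ)) 0 0 := by
    have : Continuous fun g : SL(2, ℝ) => (g : Matrix (Fin 2) (Fin 2) ℝ) 0 0 :=
      continuous_subtype_val.matrix_elem 0 0
    exact this.comp continuous_subtype_val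
  exact (hU.preimage c1).inter (isOpen_lt continuous_const c2)

end Pool.Agent.W598
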