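import Pool.Agent.W598.Stretch
import Pool.Agent.W598.Kind

open UpperHalfPlane Filter Topology Set MeasureTheory
open scoped MatrixGroups

namespace Pool.Agent.W598

/-- choice of a sequence, each term depending on the previous ones -/
lemma exists_seq_strong {α : Type*} [Inhabited α] (R : ℕ → (ℕ → α) → α → Prop)
    (hR : ∀ n g, ∃ y, R n g y)
    (hloc : ∀ n g g' y, (∀ i < n, g i = g' i) → R n g y → R n g' y) :
    ∃ f : ℕ → α, ∀ n, R n f (f n) := by
  choose ch hch using hR
  let F : ℕ → (ℕ → α) := fun n => Nat.rec (fun _ => default)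
    (fun n g => Function.update g n (ch n g)) n
  have hF : ∀ n, F (n + 1) = Function.update (F n) n (ch n (F n)) := fun n => rfl
  have hstab : ∀ n k i, i < n → F (n + k) i = F n i := by
    intro n k i hi
    induction k with
    | zero => rfl
    | succ k ih =>
      rw [← add_assoc, hF, Function.update_of_ne (by omega), ih]
  refine ⟨fun n => F (n + 1) n, fun n => ?_⟩
  have h1 : F (n + 1) n = ch n (F n) := by rw [hF, Function.update_self]
  show R n _ (F (n + 1) n)
  rw [h1]
  apply hloc n (F n) _ _ _ (hch n (F n))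
  intro i hi
  show F n i = F (i + 1) i
  obtain ⟨k, rfl⟩ : ∃ k, n = i + 1 + k := ⟨n - (i + 1), by omega⟩
  exact hstab (i + 1) k i (by omega)

/-- weights -/
noncomputable def kap (j : ℕ) : ℝ := if j < 3 then 1 / 2 else (1 / 2) ^ j

lemma kap_pos (j : ℕ) : 0 < kap j := by unfold kap; split_ifs <;> positivity

lemma kap_le (j : ℕ) : kap j ≤ 1 := by
  unfold kap
  split_ifs
  · norm_num
  · exact pow_le_one₀ (by norm_num) (by norm_num)

lemma kap_big {j : ℕ} (h : 3 ≤ j) : kap j = (1 / 2) ^ j := by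
  unfold kap; rw [if_neg (by omega)]

lemma kap_small {j : ℕ} (h : j < 3) : kap j = 1 / 2 := by
  unfold kap; rw [if_pos h]

lemma kap_tail : HasSum (fun j => kap (j + 3) ^ 2) (1 / 48) := by
  have h1 : ∀ j, kap (j + 3) ^ 2 = (1 / 64) * (1 / 4) ^ j := by
    intro j
    rw [kap_big (by omega), ← pow_mul, show (1 / 4 : ℝ) = (1 / 2) ^ 2 by norm_num, ← pow_mul,
      show (1 / 64 : ℝ) = (1 / 2) ^ 6 by norm_num, ← pow_add]
    congr 1
    ring
  simp_rw [h1]
  have h2 := (hasSum_geometric_of_lt_one (show (0 : ℝ) ≤ 1 / 4 by norm_num) (by norm_num)).mul_left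
    (1 / 64 : ℝ)
  have h3 : (1 / 48 : ℝ) = 1 / 64 * (1 - 1 / 4)⁻¹ := by norm_num
  rw [h3]
  exact h2

lemma kap_hasSum : HasSum (fun j => kap j ^ 2) (3 / 4 + 1 / 48) := by
  have h := (hasSum_nat_add_iff (f := fun j => kap j ^ 2) 3).1 kap_tail
  have e : (3 / 4 + 1 / 48 : ℝ) = 1 / 48 + ∑ i ∈ Finset.range 3, kap i ^ 2 := by
    rw [Finset.sum_range_succ, Finset.sum_range_succ, Finset.sum_range_succ, Finset.sum_range_zero,
      kap_small (by norm_num), kap_small (by norm_num), kap_small (by norm_num)]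
    norm_num
  rw [e]
  exact h

/-- A sequence visiting a dense set infinitely often. -/
noncomputable def tgt (n : ℕ) : ℝ := TopologicalSpace.denseSeq ℝ (Nat.unpair n).1

lemma exists_tgt (f ε : ℝ) (hε : 0 < ε) (N : ℕ) : ∃ n ≥ N, |tgt n - f| < ε := by
  have h := (TopologicalSpace.denseRange_denseSeq ℝ).exists_dist_lt f hε
  obtain ⟨m, hm⟩ := h
  refine ⟨Nat.pair m N, Nat.right_le_pair m N, ?_⟩
  unfold tgt
  rw [Nat.unpair_pair]
  rw [Real.dist_eq, abs_sub_comm] at hm
  exact hm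

/-- complement of the first closed intervals -/
def comp (g : ℕ → ℝ × ℝ) (n : ℕ) : Set ℝ := {x | ∀ i < n, (g i).2 < |x - (g i).1|}

lemma comp_congr {g g' : ℕ → ℝ × ℝ} {n : ℕ} (h : ∀ i < n, g i = g' i) : comp g n = comp g' n := by
  ext x
  constructor
  · intro hx i hi
    rw [← h i hi]; exact hx i hi
  · intro hx i hi
    rw [h i hi]; exact hx i hi

lemma comp_nonempty (g : ℕ → ℝ × ℝ) (n : ℕ) : (comp g n).Nonempty := by
  refine ⟨1 + ∑ i ∈ Finset.range n, (|(g i).1| + |(g i).2|), fun i hi => ?_⟩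
  have h1 : |(g i).1| + |(g i).2| ≤ ∑ i ∈ Finset.range n, (|(g i).1| + |(g i).2|) :=
    Finset.single_le_sum (f := fun i => |(g i).1| + |(g i).2|)
      (fun i _ => by positivity) (Finset.mem_range.2 hi)
  have h2 := le_abs_self (g i).1
  have h3 := le_abs_self (g i).2
  refine lt_of_lt_of_le ?_ (le_abs_self _)
  linarith

/-- the requirement on the `n`-th disc -/
def Step (s : ℝ) (n : ℕ) (g : ℕ → ℝ × ℝ) (y : ℝ × ℝ) : Prop :=
  (n < 3 → y = (4 * (n : ℝ), 1)) ∧
  (3 ≤ n → |y.1 - tgt n| < Metric.infDist (tgt n) (comp g n) + 1 / ((n : ℝ) + 1) ∧ 0 < y.2 ∧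
    y.2 ≤ kap n ∧ y.2 ^ s ≤ kap n ∧ y.2 < 1 / ((n : ℝ) + 1) ∧
    ∀ i < n, (g i).2 + y.2 < |y.1 - (g i).1| ∧
      ((g i).2 * y.2 / (|y.1 - (g i).1| - (g i).2 - y.2) ^ 2) ^ s ≤ kap i * kap n)

lemma exists_step {s : ℝ} (hs : 0 < s) (n : ℕ) (g : ℕ → ℝ × ℝ) : ∃ y, Step s n g y := by
  by_cases hn : n < 3
  · exact ⟨(4 * (n : ℝ), 1), fun _ => rfl, fun h => absurd h (by omega)⟩
  · have hpos : (0 : ℝ) < 1 / ((n : ℝ) + 1) := by positivity
    obtain ⟨x, hx, hx2⟩ := (Metric.infDist_lt_iff (comp_nonempty g n)).1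
      (lt_add_of_pos_right (Metric.infDist (tgt n) (comp g n)) hpos)
    have e1 : ∀ᶠ ρ in 𝓝[>] (0 : ℝ), 0 < ρ := self_mem_nhdsWithin
    have e2 : ∀ᶠ ρ in 𝓝[>] (0 : ℝ), ρ < kap n :=
      (eventually_lt_nhds (kap_pos n)).filter_mono nhdsWithin_le_nhds
    have e3 : ∀ᶠ ρ in 𝓝[>] (0 : ℝ), ρ ^ s < kap n := by
      have hc : Continuous fun ρ : ℝ => ρ ^ s := Real.continuous_rpow_const hs.le
      have h0 : (0 : ℝ) ^ s = 0 := Real.zero_rpow hs.ne'
      have : ∀ᶠ ρ in 𝓝 (0 : ℝ), ρ ^ s < kap n := by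
        apply hc.continuousAt.eventually_lt continuousAt_const
        rw [h0]; exact kap_pos n
      exact this.filter_mono nhdsWithin_le_nhds
    have e4 : ∀ᶠ ρ in 𝓝[>] (0 : ℝ), ρ < 1 / ((n : ℝ) + 1) :=
      (eventually_lt_nhds hpos).filter_mono nhdsWithin_le_nhds
    have e5 : ∀ᶠ ρ in 𝓝[>] (0 : ℝ), ∀ i ∈ Iio n, ((g i).2 + ρ < |x - (g i).1| ∧
        ((g i).2 * ρ / (|x - (g i).1| - (g i).2 - ρ) ^ 2) ^ s ≤ kap i * kap n) := by
      rw [eventually_all_finite (Set.finite_Iio n)]
      intro i hi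
      have hi' := hx i hi
      have hne : |x - (g i).1| - (g i).2 - 0 ≠ 0 := by
        rw [sub_zero]; linarith
      have a1 : ∀ᶠ ρ in 𝓝 (0 : ℝ), (g i).2 + ρ < |x - (g i).1| := by
        have hc : Continuous fun ρ : ℝ => (g i).2 + ρ := by fun_prop
        apply hc.continuousAt.eventually_lt continuousAt_const
        rw [add_zero]; exact hi'
      have a2 : ∀ᶠ ρ in 𝓝 (0 : ℝ),
          ((g i).2 * ρ / (|x - (g i).1| - (g i).2 - ρ) ^ 2) ^ s < kap i * kap n := by
        have hc : ContinuousAt (fun ρ : ℝ =>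
            ((g i).2 * ρ / (|x - (g i).1| - (g i).2 - ρ) ^ 2) ^ s) 0 := by
          apply ContinuousAt.comp (g := fun t : ℝ => t ^ s)
            (Real.continuous_rpow_const hs.le).continuousAt
          apply ContinuousAt.div (by fun_prop) (by fun_prop)
          exact pow_ne_zero 2 hne
        apply hc.eventually_lt continuousAt_const
        rw [mul_zero, zero_div, Real.zero_rpow hs.ne']
        exact mul_pos (kap_pos i) (kap_pos n)
      filter_upwards [a1.filter_mono nhdsWithin_le_nhds, a2.filter_mono nhdsWithin_le_nhds]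
        with ρ h1 h2
      exact ⟨h1, h2.le⟩
    obtain ⟨ρ, h1, h2, h3, h4, h5⟩ := (e1.and (e2.and (e3.and (e4.and e5)))).exists
    refine ⟨(x, ρ), fun h => absurd h hn, fun _ => ⟨?_, h1, h2.le, h3.le, h4, fun i hi => h5 i hi⟩⟩
    rw [Real.dist_eq, abs_sub_comm] at hx2
    exact hx2

lemma step_local {s : ℝ} (n : ℕ) (g g' : ℕ → ℝ × ℝ) (y : ℝ × ℝ) (h : ∀ i < n, g i = g' i)
    (H : Step s n g y) : Step s n g' y := by
  refine ⟨H.1, fun hn => ?_⟩
  obtain ⟨h1, h2, h3, h4, h5, h6⟩ := H.2 hn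
  rw [comp_congr h] at h1
  refine ⟨h1, h2, h3, h4, h5, fun i hi => ?_⟩
  rw [← h i hi]
  exact h6 i hi

/-- the properties of the final configuration -/
structure Final (c : Cfg) (s : ℝ) : Prop where
  small : ∀ j < 3, c.x j = 4 * j ∧ c.r j = 1
  big : ∀ j, 3 ≤ j → c.r j ≤ kap j ∧ (c.r j) ^ s ≤ kap j
  pair : ∀ i j, i < j → 3 ≤ j →
    (c.r i * c.r j / (|c.x i - c.x j| - c.r i - c.r j) ^ 2) ^ s ≤ kap i * kap j
  dense : DenseCfg c

lemma exists_final {s : ℝ} (hs : 0 < s) : ∃ c : Cfg, Final c s := by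
  obtain ⟨f, hf⟩ := exists_seq_strong (Step s) (exists_step hs) step_local
  have hpos : ∀ j, 0 < (f j).2 := by
    intro j
    by_cases hj : j < 3
    · rw [(hf j).1 hj]; norm_num
    · exact ((hf j).2 (by omega)).2.1
  have hsmall : ∀ j < 3, f j = (4 * (j : ℝ), 1) := fun j hj => (hf j).1 hj
  have hsep' : ∀ i j, i < j → (f i).2 + (f j).2 < |(f i).1 - (f j).1| := by
    intro i j hij
    by_cases hj : j < 3
    · rw [hsmall i (by omega), hsmall j hj]
      have : (i : ℝ) + 1 ≤ j := by exact_mod_cast hij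
      rw [abs_sub_comm]
      refine lt_of_lt_of_le ?_ (le_abs_self _)
      simp only
      linarith
    · rw [abs_sub_comm]
      exact (((hf j).2 (by omega)).2.2.2.2.2 i hij).1
  have hsep : ∀ i j, i ≠ j → (f i).2 + (f j).2 < |(f i).1 - (f j).1| := by
    intro i j hij
    rcases lt_or_gt_of_ne hij with h | h
    · exact hsep' i j h
    · rw [add_comm, abs_sub_comm]; exact hsep' j i h
  let c : Cfg := ⟨fun j => (f j).1, fun j => (f j).2, hpos, hsep⟩
  have hrle : ∀ j, c.r j ≤ 1 := by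
    intro j
    by_cases hj : j < 3
    · show (f j).2 ≤ 1
      rw [hsmall j hj]
    · exact (((hf j).2 (by omega)).2.2.1).trans (kap_le j)
  have hdens : ∀ g : ℝ, (∀ j, c.r j ≤ |g - c.x j|) → ∀ ε > 0, ∃ k, |c.x k - g| < ε ∧ c.r k < ε := by
    intro g hg ε hε
    -- points of the complement close to `g`
    have hcl : ∀ n, ∀ η > 0, ∃ g' ∈ comp f n, |g' - g| < η := by
      intro n η hη
      by_cases hex : ∃ i < n, |g - (f i).1| = (f i).2
      · obtain ⟨i, hi, hgi⟩ := hex
        have hri := hpos i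
        obtain ⟨σ, hσ, hσ2⟩ : ∃ σ : ℝ, |σ| = 1 ∧ g - (f i).1 = σ * (f i).2 := by
          rcases abs_choice (g - (f i).1) with h | h
          · exact ⟨1, abs_one, by rw [← hgi, h, one_mul]⟩
          · exact ⟨-1, by simp, by rw [← hgi, h]; ring⟩
        have e1 : ∀ᶠ δ in 𝓝[>] (0 : ℝ), ∀ k ∈ Iio n, (f k).2 < |g + σ * δ - (f k).1| := by
          rw [eventually_all_finite (Set.finite_Iio n)]
          intro k _
          by_cases hk : k = i
          · subst hk
            filter_upwards [self_mem_nhdsWithin] with δ hδ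
            have hδ' : 0 < δ := hδ
            have : g + σ * δ - (f k).1 = σ * ((f k).2 + δ) := by linarith
            rw [this, abs_mul, hσ, one_mul, abs_of_pos (by linarith)]
            linarith
          · have h1 : (f k).2 < |g - (f k).1| := by
              have h2 := hsep k i hk
              have h3 : |(f k).1 - (f i).1| ≤ |g - (f i).1| + |g - (f k).1| := by
                have : (f k).1 - (f i).1 = (g - (f i).1) - (g - (f k).1) := by ring
                calc |(f k).1 - (f i).1| = |(g - (f i).1) - (g - (f k).1)| := by rw [← this]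
                  _ ≤ _ := abs_sub _ _
              rw [hgi] at h3
              linarith
            have hc : Continuous fun δ : ℝ => |g + σ * δ - (f k).1| := by fun_prop
            have : ∀ᶠ δ in 𝓝 (0 : ℝ), (f k).2 < |g + σ * δ - (f k).1| := by
              apply continuousAt_const.eventually_lt hc.continuousAt
              simpa using h1
            exact this.filter_mono nhdsWithin_le_nhds
        have e2 : ∀ᶠ δ in 𝓝[>] (0 : ℝ), δ < η :=
          (eventually_lt_nhds hη).filter_mono nhdsWithin_le_nhds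
        have e3 : ∀ᶠ δ in 𝓝[>] (0 : ℝ), 0 < δ := self_mem_nhdsWithin
        obtain ⟨δ, h1, h2, h3⟩ := (e1.and (e2.and e3)).exists
        refine ⟨g + σ * δ, fun k hk => h1 k hk, ?_⟩
        rw [add_sub_cancel_left, abs_mul, hσ, one_mul, abs_of_pos h3]
        exact h2
      · push Not at hex
        refine ⟨g, fun i hi => lt_of_le_of_ne (hg i) (hex i hi).symm, by simpa using hη⟩
    obtain ⟨N, hN⟩ := exists_nat_one_div_lt (show 0 < ε / 4 by linarith)
    obtain ⟨n, hn, hn2⟩ := exists_tgt g (ε / 4) (by linarith) (max N 3)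
    obtain ⟨g', hg', hg'2⟩ := hcl n (ε / 4) (by linarith)
    have hn3 : 3 ≤ n := (le_max_right _ _).trans hn
    have hnN : N ≤ n := (le_max_left _ _).trans hn
    have h1 := (hf n).2 hn3
    have h2 : Metric.infDist (tgt n) (comp f n) ≤ |tgt n - g'| := by
      rw [← Real.dist_eq]; exact Metric.infDist_le_dist_of_mem hg'
    have h3 : |tgt n - g'| ≤ |tgt n - g| + |g' - g| := by
      have : tgt n - g' = (tgt n - g) - (g' - g) := by ring
      calc |tgt n - g'| = |(tgt n - g) - (g' - g)| := by rw [← this]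
        _ ≤ _ := abs_sub _ _
    have h4 : 1 / ((n : ℝ) + 1) ≤ 1 / ((N : ℝ) + 1) := by
      apply one_div_le_one_div_of_le (by positivity)
      have : (N : ℝ) ≤ n := by exact_mod_cast hnN
      linarith
    refine ⟨n, ?_, ?_⟩
    · show |(f n).1 - g| < ε
      have h5 : |(f n).1 - g| ≤ |(f n).1 - tgt n| + |tgt n - g| := abs_sub_le _ _ _
      have h6 := h1.1
      linarith
    · show (f n).2 < ε
      have h7 := h1.2.2.2.2.1
      linarith
  refine ⟨c, ?_, ?_, ?_, ?_⟩
  · intro j hj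
    have := hsmall j hj
    exact ⟨by show (f j).1 = _; rw [this], by show (f j).2 = _; rw [this]⟩
  · intro j hj
    exact ⟨((hf j).2 hj).2.2.1, ((hf j).2 hj).2.2.2.1⟩
  · intro i j hij hj
    have := (((hf j).2 hj).2.2.2.2.2 i hij).2
    show ((f i).2 * (f j).2 / (|(f i).1 - (f j).1| - (f i).2 - (f j).2) ^ 2) ^ s ≤ _
    rwa [abs_sub_comm]
  · refine ⟨hdens, ?_⟩
    intro R
    by_contra hcon
    push Not at hcon
    obtain ⟨k, hk, -⟩ := hdens (R + 2) (fun j => by
      have h1 := hcon j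
      have h2 := le_abs_self (c.x j)
      have h3 := hrle j
      have h4 := le_abs_self (R + 2 - c.x j)
      linarith) 1 one_pos
    have h1 := hcon k
    have h2 := le_abs_self (c.x k)
    have h3 := (abs_lt.1 hk).1
    linarith

end Pool.Agent.W598
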