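import Pool.Agent.W598.Config

open UpperHalfPlane Filter Topology Set MeasureTheory
open scoped MatrixGroups

namespace Pool.Agent.W598

namespace Final

variable {c : Cfg} {s : ℝ} (F : Final c s)

include F

lemma rle (j : ℕ) : c.r j ≤ 1 := by
  by_cases hj : j < 3
  · exact (F.small j hj).2.le
  · exact (F.big j (by omega)).1.trans (kap_le j)

lemma good_one (hs : 0 < s) (hs1 : s ≤ 1) : Good c 1 kap where
  spos := one_pos
  kpos := kap_pos
  kle := kap_le
  ksum := kap_hasSum.summable
  klt := by rw [kap_hasSum.tsum_eq]; norm_num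
  rle := F.rle
  rk := by
    intro j
    rw [Real.rpow_one]
    by_cases hj : j < 3
    · rw [(F.small j hj).2, kap_small hj]; norm_num
    · have := (F.big j (by omega)).1
      have := kap_pos j
      linarith
  Q := by
    have key : ∀ i j, i < j →
        (c.r i * c.r j / (|c.x i - c.x j| - c.r i - c.r j) ^ 2) ≤ kap i * kap j := by
      intro i j hij
      by_cases hj : j < 3
      · rw [(F.small i (by omega)).2, (F.small j hj).2, (F.small i (by omega)).1,
          (F.small j hj).1, kap_small hj, kap_small (show i < 3 by omega)]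
        have h1 : (i : ℝ) + 1 ≤ j := by exact_mod_cast hij
        have h2 : |4 * (i : ℝ) - 4 * j| = 4 * j - 4 * i := by
          rw [abs_sub_comm, abs_of_nonneg (by linarith)]
        rw [h2]
        have h3 : (2 : ℝ) ≤ 4 * j - 4 * i - 1 - 1 := by linarith
        rw [div_le_iff₀ (by positivity)]
        nlinarith
      · have h1 := F.pair i j hij (by omega)
        have hri := c.pos i
        have hrj := c.pos j
        have hsep := c.sep i j hij.ne
        set Q := c.r i * c.r j / (|c.x i - c.x j| - c.r i - c.r j) ^ 2 with hQ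
        have hg : 0 < |c.x i - c.x j| - c.r i - c.r j := by linarith
        have hQ0 : 0 < Q := by rw [hQ]; positivity
        have hkk : kap i * kap j ≤ 1 := mul_le_one₀ (kap_le i) (kap_pos j).le (kap_le j)
        have hQ1 : Q ≤ 1 := by
          by_contra hcon
          push Not at hcon
          have := Real.one_lt_rpow hcon hs
          linarith
        calc Q = Q ^ (1 : ℝ) := (Real.rpow_one Q).symm
          _ ≤ Q ^ s := Real.rpow_le_rpow_of_exponent_ge hQ0 hQ1 hs1
          _ ≤ _ := h1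
    intro i j hij
    rw [Real.rpow_one]
    rcases lt_or_gt_of_ne hij with h | h
    · exact key i j h
    · have := key j i h
      rw [abs_sub_comm, mul_comm (c.r i), mul_comm (kap i)]
      have e : |c.x j - c.x i| - c.r i - c.r j = |c.x j - c.x i| - c.r j - c.r i := by ring
      rw [e]
      exact this

lemma vol_le (i : ℕ) (hi : i < 2) :
    volume (Ioo (4 * (i : ℝ) + 1) (4 * i + 3) ∩ c.un) ≤ ENNReal.ofReal 1 := by
  have hsub : Ioo (4 * (i : ℝ) + 1) (4 * i + 3) ∩ c.un ⊆
      ⋃ j, Icc (c.x (j + 3) - c.r (j + 3)) (c.x (j + 3) + c.r (j + 3)) := by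
    rintro t ⟨ht, ht2⟩
    obtain ⟨j, hj⟩ := mem_iUnion.1 ht2
    by_cases hj3 : j < 3
    · exfalso
      rw [(F.small j hj3).1, (F.small j hj3).2] at hj
      obtain ⟨h1, h2⟩ := ht
      obtain ⟨h3, h4⟩ := hj
      rcases Nat.lt_or_ge i j with h | h
      · have : (i : ℝ) + 1 ≤ j := by exact_mod_cast h
        linarith
      · have : (j : ℝ) ≤ i := by exact_mod_cast h
        linarith
    · refine mem_iUnion.2 ⟨j - 3, ?_⟩
      rw [show j - 3 + 3 = j by omega]
      exact hj
  refine (measure_mono hsub).trans ((measure_iUnion_le _).trans ?_)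
  have h1 : ∀ j, volume (Icc (c.x (j + 3) - c.r (j + 3)) (c.x (j + 3) + c.r (j + 3))) ≤
      ENNReal.ofReal ((1 / 4) * (1 / 2) ^ j) := by
    intro j
    rw [Real.volume_Icc]
    apply ENNReal.ofReal_le_ofReal
    have h2 := (F.big (j + 3) (by omega)).1
    rw [kap_big (by omega)] at h2
    have h3 : ((1 : ℝ) / 2) ^ (j + 3) = (1 / 8) * (1 / 2) ^ j := by
      rw [pow_add]; ring
    rw [h3] at h2
    linarith
  have hsum := (hasSum_geometric_of_lt_one (show (0 : ℝ) ≤ 1 / 2 by norm_num) (by norm_num)).mul_left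
    (1 / 4 : ℝ)
  calc ∑' j, volume (Icc (c.x (j + 3) - c.r (j + 3)) (c.x (j + 3) + c.r (j + 3)))
      ≤ ∑' j : ℕ, ENNReal.ofReal ((1 / 4) * (1 / 2) ^ j) := ENNReal.tsum_le_tsum h1
    _ = ENNReal.ofReal (∑' j : ℕ, (1 / 4) * (1 / 2) ^ j) := by
        rw [ENNReal.ofReal_tsum_of_nonneg (fun j => by positivity) hsum.summable]
    _ ≤ ENNReal.ofReal 1 := by
        apply ENNReal.ofReal_le_ofReal
        rw [hsum.tsum_eq]
        norm_num

lemma fr_ge (i : ℕ) (hi : i < 2) : 1 ≤ c.fr (4 * ((i : ℝ) + 1)) - c.fr (4 * i) := by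
  have h1 := c.le_fr (show 4 * (i : ℝ) + 1 ≤ 4 * i + 3 by linarith) zero_le_one (F.vol_le i hi)
  have h2 := c.fr_mono (show 4 * (i : ℝ) ≤ 4 * i + 1 by linarith)
  have h3 := c.fr_mono (show 4 * (i : ℝ) + 3 ≤ 4 * ((i : ℝ) + 1) by linarith)
  linarith

lemma good_stretch (hs : 0 < s) {Λ : ℝ} (hΛ : 0 < Λ) (hΛs : (1 / Λ ^ 2) ^ s ≤ 1 / 4) :
    Good (c.stretch Λ hΛ.le) s kap where
  spos := hs
  kpos := kap_pos
  kle := kap_le
  ksum := kap_hasSum.summable
  klt := by rw [kap_hasSum.tsum_eq]; norm_num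
  rle := F.rle
  rk := by
    intro j
    show (c.r j) ^ s ≤ _
    by_cases hj : j < 3
    · rw [(F.small j hj).2, kap_small hj, Real.one_rpow]; norm_num
    · have := (F.big j (by omega)).2
      have := kap_pos j
      linarith
  Q := by
    have key : ∀ i j, i < j →
        (c.r i * c.r j / (|c.st Λ (c.x i) - c.st Λ (c.x j)| - c.r i - c.r j) ^ 2) ^ s ≤
          kap i * kap j := by
      intro i j hij
      by_cases hj : j < 3
      · rw [(F.small i (by omega)).2, (F.small j hj).2, (F.small i (by omega)).1,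
          (F.small j hj).1, kap_small hj, kap_small (show i < 3 by omega)]
        have h1 : (i : ℝ) + 1 ≤ j := by exact_mod_cast hij
        have h2 := F.fr_ge i (by omega)
        have h3 := c.fr_mono (show 4 * ((i : ℝ) + 1) ≤ 4 * j by linarith)
        have h4 : 4 + Λ ≤ c.st Λ (4 * j) - c.st Λ (4 * i) := by
          unfold Cfg.st
          nlinarith
        have h5 : |c.st Λ (4 * i) - c.st Λ (4 * j)| = c.st Λ (4 * j) - c.st Λ (4 * i) := by
          rw [abs_sub_comm, abs_of_nonneg (by linarith)]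
        rw [h5]
        have h6 : (1 : ℝ) / 2 * (1 / 2) = 1 / 4 := by norm_num
        rw [h6]
        refine le_trans ?_ hΛs
        apply Real.rpow_le_rpow (by positivity) _ hs.le
        rw [one_mul]
        have h7 : Λ ≤ c.st Λ (4 * j) - c.st Λ (4 * i) - 1 - 1 := by linarith
        gcongr
      · refine le_trans ?_ (F.pair i j hij (by omega))
        have hri := c.pos i
        have hrj := c.pos j
        have hsep := c.sep i j hij.ne
        have h1 := c.abs_st_ge hΛ.le (c.x i) (c.x j)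
        have hg : 0 < |c.x i - c.x j| - c.r i - c.r j := by linarith
        apply Real.rpow_le_rpow (by positivity) _ hs.le
        gcongr
    intro i j hij
    show (c.r i * c.r j / (|c.st Λ (c.x i) - c.st Λ (c.x j)| - c.r i - c.r j) ^ 2) ^ s ≤
          kap i * kap j
    rcases lt_or_gt_of_ne hij with h | h
    · exact key i j h
    · have := key j i h
      rw [abs_sub_comm, mul_comm (c.r i), mul_comm (kap i)]
      have e : |c.st Λ (c.x j) - c.st Λ (c.x i)| - c.r i - c.r j =
        |c.st Λ (c.x j) - c.st Λ (c.x i)| - c.r j - c.r i := by ring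
      rw [e]
      exact this

end Final

lemma mat_congr {c c' : Cfg} {j : ℕ} (h1 : c.x j = c'.x j) (h2 : c.r j = c'.r j) :
    c.mat j = c'.mat j := by
  unfold Cfg.mat
  apply Subtype.ext
  simp only [h1, h2]

lemma deform_eq {c c' : Cfg} {w : ℍ ≃ₜ ℍ} (hw : ∀ (l : List ℕ) (z : ℍ),
    w (c.act l z) = c'.act l (w z)) : deform c.grp w = c'.grp := by
  ext g
  unfold deform
  rw [Subgroup.mem_map]
  constructor
  · rintro ⟨γ, ⟨l, hl, hγ⟩, rfl⟩
    refine ⟨l, hl, fun z => ?_⟩
    show w (γ (w.symm z)) = _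
    rw [hγ, hw, w.apply_symm_apply]
  · rintro ⟨l, hl, hg⟩
    refine ⟨c.wd l, c.wd_mem hl, ?_⟩
    ext1 z
    show w (c.wd l (w.symm z)) = _
    rw [c.wd_apply, hw, w.apply_symm_apply, hg]

lemma isQuasiconformal_one : IsQuasiconformal 1 := by
  apply isQuasiconformal_of (le_refl (1 : ℝ))
  · intro z
    refine Eventually.of_forall fun y => ?_
    rw [one_mul]
    rfl
  · intro z
    refine Eventually.of_forall fun y => ?_
    rw [one_mul]
    rfl
  · refine ⟨I, 0, Eventually.of_forall fun y => ?_⟩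
    show (y : ℂ) = _
    simp

/-- There is an infinitely generated Fuchsian group of the first kind, without fixed points in
the hyperbolic plane, whose critical exponent is not constant on its quasiconformal deformation
space. -/
theorem main : ∃ Γ₀ : Subgroup (ℍ ≃ₜ ℍ),
    IsFuchsian Γ₀ ∧ IsFirstKind Γ₀ ∧ ¬ Γ₀.FG ∧ (∀ γ ∈ Γ₀, ∀ z : ℍ, γ z = z → γ = 1) ∧
    ∃ w₁ ∈ Tqc Γ₀, ∃ w₂ ∈ Tqc Γ₀, ∀ o : ℍ, critExp (deform Γ₀ w₁) o ≠ critExp (deform Γ₀ w₂) o := by
  obtain ⟨c₀, F₀⟩ := exists_final (s := 1) one_pos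
  set L := 1 + dist I (c₀.act [0, 1] I) + dist I (c₀.act [0, 2] I) with hL
  have d1 : 0 ≤ dist I (c₀.act [0, 1] I) := dist_nonneg
  have d2 : 0 ≤ dist I (c₀.act [0, 2] I) := dist_nonneg
  have hLpos : 0 < L := by linarith
  have hlog : 0 < Real.log 2 := Real.log_pos (by norm_num)
  set s := min (Real.log 2 / (2 * L)) 1 with hs
  have hspos : 0 < s := lt_min (by positivity) one_pos
  have hs1 : s ≤ 1 := min_le_right _ _
  have hslt : s < Real.log 2 / L := by
    refine (min_le_left _ _).trans_lt ?_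
    rw [div_lt_div_iff_of_pos_left hlog (by positivity) hLpos]
    linarith
  obtain ⟨c, F⟩ := exists_final (s := s) hspos
  set Λ := (2 : ℝ) ^ (1 / s) with hΛ
  have hΛpos : 0 < Λ := by positivity
  have hΛs : (1 / Λ ^ 2) ^ s ≤ 1 / 4 := by
    have h1 : Λ ^ s = 2 := by
      rw [hΛ, ← Real.rpow_mul (by norm_num), one_div, inv_mul_cancel₀ hspos.ne', Real.rpow_one]
    have h2 : (Λ ^ 2) ^ s = 4 := by
      rw [← Real.rpow_natCast, ← Real.rpow_mul hΛpos.le, mul_comm, Real.rpow_mul hΛpos.le, h1]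
      norm_num
    rw [one_div, Real.inv_rpow (by positivity), h2]
    norm_num
  have G := F.good_one hspos hs1
  have G' := F.good_stretch hspos hΛpos hΛs
  have x0 : c.x 0 = 0 := by
    rw [(F.small 0 (by norm_num)).1]; simp
  obtain ⟨w, hw, hw2⟩ := exists_qc hΛpos.le G G' x0 (F.small 0 (by norm_num)).2
  have hmat : ∀ j < 3, c.mat j = c₀.mat j := fun j hj =>
    mat_congr (by rw [(F.small j hj).1, (F₀.small j hj).1])
      (by rw [(F.small j hj).2, (F₀.small j hj).2])
  have a1 : c.act [0, 1] I = c₀.act [0, 1] I := by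
    simp only [Cfg.act_cons, Cfg.act_nil]
    rw [hmat 0 (by norm_num), hmat 1 (by norm_num)]
  have a2 : c.act [0, 2] I = c₀.act [0, 2] I := by
    simp only [Cfg.act_cons, Cfg.act_nil]
    rw [hmat 0 (by norm_num), hmat 2 (by norm_num)]
  refine ⟨c.grp, isFuchsian G, isFirstKind G F.dense, not_fg c F.rle,
    fun γ hγ z hz => c.grp_free G hγ hz, 1, ⟨isQuasiconformal_one, ?_⟩, w, ⟨hw, ?_⟩, ?_⟩
  · intro γ hγ
    rw [one_mul, inv_one, mul_one]
    exact c.grp_le hγ
  · intro γ hγ
    have h1 : w * γ * w⁻¹ ∈ deform c.grp w := ⟨γ, hγ, rfl⟩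
    rw [deform_eq hw2] at h1
    exact (c.stretch Λ hΛpos.le).grp_le h1
  · intro o
    have e1 : deform c.grp 1 = c.grp := deform_eq (fun l z => rfl)
    rw [e1, deform_eq hw2]
    have h1 := le_critExp G (L := L) (by rw [a1]; linarith) (by rw [a2]; linarith) hLpos o
    have h2 := critExp_le G' o
    exact (h2.trans_lt (hslt.trans_le h1)).ne'

end Pool.Agent.W598
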