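import Mathlib

open UpperHalfPlane Filter Topology Set
open scoped MatrixGroups

namespace Pool.Agent.W598

/-- The action of `SL(2, ℝ)` on the hyperbolic plane `ℍ` by Möbius transformations, as a
homomorphism to the group of homeomorphisms of `ℍ` (its kernel is `{1, -1}`). -/
noncomputable def moebius : SL(2, ℝ) →* (ℍ ≃ₜ ℍ) where
  toFun g := Homeomorph.smul g
  map_one' := by ext z; simp
  map_mul' g h := by
    ext1 z
    show (g * h) • z = g • h • z
    exact mul_smul g h z

/-- `PSL(2, ℝ)`, realised as the group of Möbius transformations of `ℍ` inside the group of all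
homeomorphisms of `ℍ`. -/
noncomputable def PSL2R : Subgroup (ℍ ≃ₜ ℍ) := moebius.range

/-- A Fuchsian group: a discrete subgroup of `PSL(2, ℝ)` (that is, its preimage in `SL(2, ℝ)` is
discrete). -/
structure IsFuchsian (Γ : Subgroup (ℍ ≃ₜ ℍ)) : Prop where
  le : Γ ≤ PSL2R
  discrete : DiscreteTopology (Γ.comap moebius)

/-- The circle at infinity of `ℍ`, as a subset of the Riemann sphere. -/
def circleAtInfinity : Set (OnePoint ℂ) :=
  insert OnePoint.infty (range fun x : ℝ => (((x : ℂ)) : OnePoint ℂ))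

/-- The orbit of `z`, as a subset of the Riemann sphere. -/
def orbit (Γ : Subgroup (ℍ ≃ₜ ℍ)) (z : ℍ) : Set (OnePoint ℂ) :=
  {p | ∃ γ ∈ Γ, p = (((γ z : ℍ) : ℂ) : OnePoint ℂ)}

/-- A group is of the first kind if its limit set is the whole circle at infinity: every point of
the circle at infinity is an accumulation point of every orbit. -/
def IsFirstKind (Γ : Subgroup (ℍ ≃ₜ ℍ)) : Prop :=
  ∀ z : ℍ, ∀ ξ ∈ circleAtInfinity, AccPt ξ (𝓟 (orbit Γ z))

/-- The extension of a self-map of `ℍ` to a function of a complex variable (only its values in the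
upper half plane matter). -/
noncomputable def ext (w : ℍ → ℍ) (z : ℂ) : ℂ := (w (ofComplex z) : ℂ)

/-- Quasiconformal homeomorphisms of the hyperbolic plane (metric definition): the linear
dilatation `sup {d(w z, w z₁) : d(z, z₁) ≤ r} / inf {d(w z, w z₂) : d(z, z₂) ≥ r}` is bounded, as
`r → 0`, by a constant independent of `z`; and `w` preserves the orientation, that is, it has
positive Jacobian at some point where it is differentiable. -/
structure IsQuasiconformal (w : ℍ ≃ₜ ℍ) : Prop where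
  dilatation : ∃ K : ℝ, ∀ z : ℍ, ∀ᶠ r in 𝓝[>] (0 : ℝ), ∀ z₁ z₂ : ℍ,
    dist z z₁ ≤ r → r ≤ dist z z₂ → dist (w z) (w z₁) ≤ K * dist (w z) (w z₂)
  orientation : ∃ z : ℍ, DifferentiableAt ℝ (ext w) (z : ℂ) ∧
    0 < (fderiv ℝ (ext w) (z : ℂ)).det

/-- The maps representing the points of the quasiconformal deformation space of `Γ₀`: the
quasiconformal homeomorphisms `w` of `ℍ` with `w Γ₀ w⁻¹ ⊆ PSL(2, ℝ)`. -/
def Tqc (Γ₀ : Subgroup (ℍ ≃ₜ ℍ)) : Set (ℍ ≃ₜ ℍ) :=
  {w | IsQuasiconformal w ∧ ∀ γ ∈ Γ₀, w * γ * w⁻¹ ∈ PSL2R}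

/-- The deformed group `w Γ₀ w⁻¹`. -/
noncomputable def deform (Γ₀ : Subgroup (ℍ ≃ₜ ℍ)) (w : ℍ ≃ₜ ℍ) : Subgroup (ℍ ≃ₜ ℍ) :=
  Γ₀.map (MulAut.conj w).toMonoidHom

/-- The critical exponent of `Γ`, computed at the base point `o`: the infimum of the `s > 0` for
which the Poincaré series `∑ exp (-s d(o, γ o))` converges. -/
noncomputable def critExp (Γ : Subgroup (ℍ ≃ₜ ℍ)) (o : ℍ) : ℝ :=
  sInf {s : ℝ | 0 < s ∧ Summable fun γ : Γ => Real.exp (-s * dist o ((γ : ℍ ≃ₜ ℍ) o))}

end Pool.Agent.W598
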