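import Pool.Agent.W598.Good

open UpperHalfPlane Filter Topology Set
open scoped MatrixGroups

namespace Pool.Agent.W598

/-- A map of the fundamental domain of `c` to that of `c'` compatible with the side pairings. -/
structure Pairing (c c' : Cfg) (T : ℍ → ℍ) : Prop where
  cont : Continuous T
  maps : ∀ z ∈ c.dom, T z ∈ c'.dom
  comp : ∀ j z, c.q j z = c.r j → T (c.mat j • z) = c'.mat j • T z

lemma Pairing.act {c c' : Cfg} {T : ℍ → ℍ} (P : Pairing c c' T) :
    ∀ (n : ℕ) (l : List ℕ), l.length = n → ∀ z ∈ c.dom, c.act l z ∈ c.dom →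
      T (c.act l z) = c'.act l (T z) := by
  intro n
  induction n using Nat.strong_induction_on with
  | _ n IH =>
    intro l hn z hz hlz
    by_cases hl : Cfg.Red l
    · match l, hn, hlz, hl with
      | [], _, _, _ => rfl
      | [j], _, hlz, _ =>
        have h1 : c.r j ≤ c.q j (c.mat j • z) := hlz j
        have h2 := hz j
        have h3 : c.q j z = c.r j := by
          apply le_antisymm _ h2
          by_contra h
          push Not at h
          exact absurd (c.q_mat_lt h) (not_lt.2 h1)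
        exact P.comp j z h3
      | j :: m :: l, _, hlz, hl =>
        exact absurd (hlz j) (not_le.2 (c.q_act_lt j m l hl (c.ok_of_dom _ hz)))
    · obtain ⟨l₁, j, l₂, rfl⟩ := Cfg.exists_cancel l hl
      rw [c.act_cancel] at hlz ⊢
      rw [c'.act_cancel]
      refine IH (l₁ ++ l₂).length ?_ _ rfl z hz hlz
      rw [← hn]
      simp

section glue

variable {c c' : Cfg} {s : ℝ} {κ : ℕ → ℝ} (G : Good c s κ) {T : ℍ → ℍ}

/-- a chosen word -/
noncomputable def Good.word (z : ℍ) : List ℕ := (G.cover z).choose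
/-- a chosen base point -/
noncomputable def Good.base (z : ℍ) : ℍ := (G.cover z).choose_spec.2.choose

lemma Good.red_word (z : ℍ) : Cfg.Red (G.word z) := (G.cover z).choose_spec.1
lemma Good.base_mem (z : ℍ) : G.base z ∈ c.dom := (G.cover z).choose_spec.2.choose_spec.1
lemma Good.act_base (z : ℍ) : c.act (G.word z) (G.base z) = z :=
  (G.cover z).choose_spec.2.choose_spec.2

variable (c') in
/-- The equivariant extension of `T`. -/
noncomputable def glue (G : Good c s κ) (T : ℍ → ℍ) (z : ℍ) : ℍ :=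
  c'.act (G.word z) (T (G.base z))

lemma glue_act (P : Pairing c c' T) (l : List ℕ) {z : ℍ} (hz : z ∈ c.dom) :
    glue c' G T (c.act l z) = c'.act l (T z) := by
  set y := c.act l z with hy
  set m := G.word y with hm
  have h1 : c.act m (G.base y) = c.act l z := G.act_base y
  have h2 : G.base y = c.act (m.reverse ++ l) z := by
    rw [c.act_append, ← h1, c.act_reverse_act]
  have h3 := P.act _ (m.reverse ++ l) rfl z hz (by rw [← h2]; exact G.base_mem y)
  rw [← h2, c'.act_append] at h3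
  show c'.act m (T (G.base y)) = c'.act l (T z)
  rw [h3, c'.act_act_reverse]

lemma glue_mat (P : Pairing c c' T) (j : ℕ) (z : ℍ) :
    glue c' G T (c.mat j • z) = c'.mat j • glue c' G T z := by
  obtain ⟨l, -, z₀, hz₀, rfl⟩ := G.cover z
  have := glue_act G P (j :: l) hz₀
  rw [Cfg.act_cons] at this
  rw [this, glue_act G P l hz₀]
  rfl

lemma glue_dom (P : Pairing c c' T) {z : ℍ} (hz : z ∈ c.dom) : glue c' G T z = T z :=
  glue_act G P [] hz

/-- tile of a word -/
def tile (c : Cfg) (l : {l : List ℕ // Cfg.Red l}) : Set ℍ := c.act l.1.reverse ⁻¹' c.dom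

lemma mem_tile {c : Cfg} {l : {l : List ℕ // Cfg.Red l}} {z : ℍ} :
    z ∈ tile c l ↔ ∃ z₀ ∈ c.dom, c.act l.1 z₀ = z := by
  constructor
  · intro h
    exact ⟨_, h, c.act_act_reverse _ _⟩
  · rintro ⟨z₀, h, rfl⟩
    show c.act l.1.reverse (c.act l.1 z₀) ∈ c.dom
    rw [c.act_reverse_act]
    exact h

lemma isClosed_tile (c : Cfg) (l : {l : List ℕ // Cfg.Red l}) : IsClosed (tile c l) :=
  c.isClosed_dom.preimage (c.continuous_act _)

include G in
lemma locallyFinite_tile : LocallyFinite (tile c) := by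
  intro z
  refine ⟨{w | z.im / 2 < w.im}, ?_, ?_⟩
  · apply (isOpen_lt continuous_const UpperHalfPlane.continuous_im).mem_nhds
    show z.im / 2 < z.im
    have := z.im_pos
    linarith
  · have h := G.finite_tiles (show 0 < z.im / 2 from by have := z.im_pos; linarith)
    apply Set.Finite.of_finite_image (f := Subtype.val) _ Subtype.val_injective.injOn
    apply h.subset
    rintro _ ⟨⟨l, hl⟩, ⟨w, hw, hw2⟩, rfl⟩
    obtain ⟨z₀, hz₀, rfl⟩ := mem_tile.1 hw
    exact ⟨hl, z₀, hz₀, le_of_lt hw2⟩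

include G in
lemma iUnion_tile : ⋃ l, tile c l = univ := by
  ext z
  simp only [mem_iUnion, mem_univ, iff_true]
  obtain ⟨l, hl, z₀, hz₀, h⟩ := G.cover z
  exact ⟨⟨l, hl⟩, mem_tile.2 ⟨z₀, hz₀, h⟩⟩

lemma continuous_glue (P : Pairing c c' T) : Continuous (glue c' G T) := by
  refine (locallyFinite_tile G).continuous (iUnion_tile G) (isClosed_tile c) ?_
  intro l
  have h : ContinuousOn (fun z => c'.act l.1 (T (c.act l.1.reverse z))) (tile c l) :=
    ((c'.continuous_act _).comp (P.cont.comp (c.continuous_act _))).continuousOn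
  refine h.congr ?_
  intro z hz
  obtain ⟨z₀, hz₀, rfl⟩ := mem_tile.1 hz
  rw [glue_act G P _ hz₀]
  simp only
  rw [c.act_reverse_act]

include G in
/-- near every point `z`, all points share a tile with `z` -/
lemma eventually_tile (z : ℍ) : ∀ᶠ w in 𝓝 z, ∃ l : {l : List ℕ // Cfg.Red l},
    z ∈ tile c l ∧ w ∈ tile c l := by
  have hlf := locallyFinite_tile G
  have hcl : IsClosed (⋃ l : {l : {l : List ℕ // Cfg.Red l} // z ∉ tile c l}, tile c l.1) :=
    (hlf.comp_injective Subtype.val_injective).isClosed_iUnion fun l => isClosed_tile c _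
  have hmem : (⋃ l : {l : {l : List ℕ // Cfg.Red l} // z ∉ tile c l}, tile c l.1)ᶜ ∈ 𝓝 z := by
    apply hcl.isOpen_compl.mem_nhds
    simp only [mem_compl_iff, mem_iUnion, not_exists]
    rintro ⟨l, hl⟩ h
    exact hl h
  filter_upwards [hmem] with w hw
  have : w ∈ ⋃ l, tile c l := by rw [iUnion_tile G]; trivial
  obtain ⟨l, hl⟩ := mem_iUnion.1 this
  refine ⟨l, ?_, hl⟩
  by_contra hz
  exact hw (mem_iUnion.2 ⟨⟨l, hz⟩, hl⟩)

lemma eventually_lip (P : Pairing c c' T) {K : ℝ} (hK : ∀ z w, dist (T z) (T w) ≤ K * dist z w)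
    (z : ℍ) : ∀ᶠ w in 𝓝 z, dist (glue c' G T z) (glue c' G T w) ≤ K * dist z w := by
  filter_upwards [eventually_tile G z] with w ⟨l, hz, hw⟩
  obtain ⟨z₀, hz₀, rfl⟩ := mem_tile.1 hz
  obtain ⟨w₀, hw₀, rfl⟩ := mem_tile.1 hw
  rw [glue_act G P _ hz₀, glue_act G P _ hw₀, c'.dist_act, c.dist_act]
  exact hK _ _

end glue

/-- Gluing gives a homeomorphism. -/
noncomputable def glueHomeo {c c' : Cfg} {s s' : ℝ} {κ κ' : ℕ → ℝ} (G : Good c s κ)
    (G' : Good c' s' κ') {T S : ℍ → ℍ} (P : Pairing c c' T) (P' : Pairing c' c S)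
    (h1 : ∀ z, S (T z) = z) (h2 : ∀ z, T (S z) = z) : ℍ ≃ₜ ℍ where
  toFun := glue c' G T
  invFun := glue c G' S
  left_inv z := by
    obtain ⟨l, -, z₀, hz₀, rfl⟩ := G.cover z
    rw [glue_act G P l hz₀, glue_act G' P' l (P.maps _ hz₀), h1]
  right_inv z := by
    obtain ⟨l, -, z₀, hz₀, rfl⟩ := G'.cover z
    rw [glue_act G' P' l hz₀, glue_act G P l (P'.maps _ hz₀), h2]
  continuous_toFun := continuous_glue G P
  continuous_invFun := continuous_glue G' P'

end Pool.Agent.W598
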