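import Mathlib

open Filter Topology Set

namespace Pool.Agent.W598

/-- sum over tuples of a product -/
lemma tsum_tuple_prod {α : Type*} (a : α → ENNReal) (n : ℕ) :
    ∑' v : Fin n → α, ∏ i, a (v i) = (∑' j, a j) ^ n := by
  induction n with
  | zero => simp
  | succ n ih =>
    rw [← (Fin.consEquiv (fun _ : Fin (n + 1) => α)).tsum_eq]
    have h1 : ∀ p : α × (Fin n → α),
        ∏ i, a ((Fin.consEquiv (fun _ : Fin (n + 1) => α)) p i) = a p.1 * ∏ i, a (p.2 i) := by
      intro p
      rw [Fin.prod_univ_succ]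
      simp [Fin.consEquiv]
    have h2 : ∑' p : α × (Fin n → α),
        ∏ i, a ((Fin.consEquiv (fun _ : Fin (n + 1) => α)) p i) =
        ∑' p : α × (Fin n → α), a p.1 * ∏ i, a (p.2 i) := tsum_congr h1
    rw [h2, ENNReal.tsum_prod (f := fun (x : α) (y : Fin n → α) => a x * ∏ i, a (y i))]
    simp_rw [ENNReal.tsum_mul_left, ih]
    rw [ENNReal.tsum_mul_right, pow_succ, mul_comm]

lemma tsum_list_prod {α : Type*} (a : α → ENNReal) :
    ∑' l : List α, (l.map a).prod = ∑' n : ℕ, (∑' j, a j) ^ n := by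
  rw [← (List.equivSigmaTuple (α := α)).symm.tsum_eq, ENNReal.tsum_sigma']
  refine tsum_congr fun n => ?_
  rw [← tsum_tuple_prod]
  refine tsum_congr fun v => ?_
  have : (List.equivSigmaTuple.symm (⟨n, v⟩ : (n : ℕ) × (Fin n → α))) = List.ofFn v := rfl
  rw [this, List.map_ofFn, List.prod_ofFn]
  rfl

/-- Words: a product weight with total mass less than one is summable over all words. -/
lemma summable_list_prod {w : ℕ → ℝ} (h0 : ∀ j, 0 ≤ w j) (hs : Summable w) (h1 : ∑' j, w j < 1) :
    Summable fun l : List ℕ => (l.map w).prod := by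
  have hnn : ∀ l : List ℕ, 0 ≤ (l.map w).prod := by
    intro l
    apply List.prod_nonneg
    intro a ha
    obtain ⟨j, -, rfl⟩ := List.mem_map.1 ha
    exact h0 j
  have hE : ∀ l : List ℕ, ENNReal.ofReal ((l.map w).prod) =
      (l.map fun j => ENNReal.ofReal (w j)).prod := by
    intro l
    induction l with
    | nil => simp
    | cons j l ih =>
      simp only [List.map_cons, List.prod_cons]
      rw [ENNReal.ofReal_mul (h0 j), ih]
  have hlt : ∑' j, ENNReal.ofReal (w j) < 1 := by
    rw [← ENNReal.ofReal_tsum_of_nonneg h0 hs]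
    rw [← ENNReal.ofReal_one]
    exact (ENNReal.ofReal_lt_ofReal_iff one_pos).2 h1
  have hne : ∑' l : List ℕ, ENNReal.ofReal ((l.map w).prod) ≠ ⊤ := by
    simp_rw [hE]
    rw [tsum_list_prod, ENNReal.tsum_geometric]
    rw [ENNReal.inv_ne_top]
    exact (tsub_pos_of_lt hlt).ne'
  have := ENNReal.summable_toReal hne
  refine this.congr fun l => ?_
  rw [ENNReal.toReal_ofReal (hnn l)]

/-- The full binary tree is not summable at exponent one half. -/
lemma not_summable_half : ¬ Summable fun b : List Bool => ((1 : ℝ) / 2) ^ b.length := by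
  intro h
  have h1 : ∑' b : List Bool, ENNReal.ofReal (((1 : ℝ) / 2) ^ b.length) ≠ ⊤ := h.tsum_ofReal_ne_top
  apply h1
  have h2 : ∀ b : List Bool, ENNReal.ofReal (((1 : ℝ) / 2) ^ b.length) =
      (b.map fun _ => ENNReal.ofReal (1 / 2)).prod := by
    intro b
    rw [ENNReal.ofReal_pow (by norm_num)]
    simp
  simp_rw [h2]
  rw [tsum_list_prod]
  have h3 : ∑' _ : Bool, ENNReal.ofReal (1 / 2) = 1 := by
    rw [tsum_fintype, Fintype.sum_bool, ← ENNReal.ofReal_add (by norm_num) (by norm_num)]
    norm_num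
  rw [h3]
  simp

end Pool.Agent.W598
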