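import Pool.Agent.W598.Basic
import Pool.Agent.W598.Words

open UpperHalfPlane Filter Topology Set
open scoped MatrixGroups

namespace Pool.Agent.W598

/-- weight of a word -/
noncomputable def wt (w : ℕ → ℝ) (l : List ℕ) : ℝ := (l.map w).prod

lemma wt_nil (w : ℕ → ℝ) : wt w [] = 1 := rfl
lemma wt_cons (w : ℕ → ℝ) (j : ℕ) (l : List ℕ) : wt w (j :: l) = w j * wt w l := by
  simp [wt]

lemma wt_pos {w : ℕ → ℝ} (h : ∀ j, 0 < w j) (l : List ℕ) : 0 < wt w l := by
  induction l with
  | nil => simp [wt]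
  | cons j l ih => rw [wt_cons]; exact mul_pos (h j) ih

lemma wt_le_one {w : ℕ → ℝ} (h : ∀ j, 0 < w j) (h1 : ∀ j, w j ≤ 1) (l : List ℕ) : wt w l ≤ 1 := by
  induction l with
  | nil => simp [wt]
  | cons j l ih => rw [wt_cons]; exact mul_le_one₀ (h1 j) (wt_pos h l).le ih

lemma wt_sq (w : ℕ → ℝ) (l : List ℕ) : wt (fun j => w j ^ 2) l = wt w l ^ 2 := by
  induction l with
  | nil => simp [wt]
  | cons j l ih => rw [wt_cons, wt_cons, ih]; ring

lemma wt_le_of_mem {w : ℕ → ℝ} (h : ∀ j, 0 < w j) (h1 : ∀ j, w j ≤ 1) {l : List ℕ} {e : ℕ}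
    (he : e ∈ l) : wt w l ≤ w e := by
  induction l with
  | nil => exact absurd he (List.not_mem_nil)
  | cons j l ih =>
    rw [wt_cons]
    rcases List.mem_cons.1 he with rfl | he
    · have := wt_le_one h h1 l
      have := h e
      nlinarith
    · have h2 := ih he
      have h3 := h1 j
      have h4 := h j
      have h5 := wt_pos h l
      nlinarith

/-- Quantitative assumptions on a family of half discs at the exponent `s`. -/
structure Good (c : Cfg) (s : ℝ) (κ : ℕ → ℝ) : Prop where
  spos : 0 < s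
  kpos : ∀ j, 0 < κ j
  kle : ∀ j, κ j ≤ 1
  ksum : Summable fun j => κ j ^ 2
  klt : ∑' j, κ j ^ 2 < 1
  rle : ∀ j, c.r j ≤ 1
  rk : ∀ j, (c.r j) ^ s ≤ 2 * κ j
  Q : ∀ i j, i ≠ j → (c.r i * c.r j / (|c.x i - c.x j| - c.r i - c.r j) ^ 2) ^ s ≤ κ i * κ j

namespace Good

variable {c : Cfg} {s : ℝ} {κ : ℕ → ℝ} (G : Good c s κ)

include G

lemma est (j : ℕ) (l : List ℕ) (hl : Cfg.Red (j :: l)) (e : ℕ)
    (he : (j :: l).getLast? = some e) {z : ℍ} (hz : c.r e ≤ c.q e z) :
    (c.act (j :: l) z).im ^ s * (κ j * κ e) ≤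
      (c.r j) ^ s * wt (fun j => κ j ^ 2) (j :: l) * (c.r e * z.im / c.q e z ^ 2) ^ s := by
  induction l generalizing j with
  | nil =>
    have hej : e = j := by simpa using he.symm
    subst hej
    have h1 := c.im_mat_smul e z
    have hq := c.q_pos e z
    have hr := c.pos e
    have hi := z.im_pos
    simp only [Cfg.act_cons, Cfg.act_nil, wt_cons, wt_nil]
    rw [h1]
    have h2 : c.r e ^ 2 * z.im / c.q e z ^ 2 = c.r e * (c.r e * z.im / c.q e z ^ 2) := by ring
    rw [h2, Real.mul_rpow hr.le (by positivity)]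
    apply le_of_eq
    ring
  | cons m l ih =>
    have hne : j ≠ m := (List.isChain_cons_cons.1 hl).1
    have hl' : Cfg.Red (m :: l) := (List.isChain_cons_cons.1 hl).2
    have he' : (m :: l).getLast? = some e := by rw [← List.getLast?_cons_cons]; exact he
    have IH := ih m hl' he'
    have hz' : c.Ok (m :: l) z := by
      intro k hk
      rw [he'] at hk
      have : e = k := by simpa using hk
      subst this
      exact hz
    set z' := c.act (m :: l) z with hz'def
    have hm : c.q m z' ≤ c.r m := c.q_act_le m l hl' hz'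
    have hfar := c.far (j := j) hm
    have hsep := c.sep m j hne.symm
    have hg : 0 < |c.x j - c.x m| - c.r j - c.r m := by
      rw [abs_sub_comm]; linarith
    set g := |c.x j - c.x m| - c.r j - c.r m with hgdef
    have hgq : g ≤ c.q j z' := by
      have := c.pos j
      rw [abs_sub_comm] at hfar
      linarith
    have hrj := c.pos j
    have hrm := c.pos m
    have hkj := G.kpos j
    have hkm := G.kpos m
    have hke := G.kpos e
    have hi := z'.im_pos
    have hs := G.spos.le
    have hQ := G.Q j m hne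
    rw [← hgdef] at hQ
    have h1 : (c.act (j :: m :: l) z).im = c.r j ^ 2 * z'.im / c.q j z' ^ 2 := by
      rw [Cfg.act_cons, ← hz'def, c.im_mat_smul]
    have h2 : (c.act (j :: m :: l) z).im ≤ c.r j ^ 2 / g ^ 2 * z'.im := by
      rw [h1, mul_div_right_comm]
      have : c.r j ^ 2 / c.q j z' ^ 2 ≤ c.r j ^ 2 / g ^ 2 := by gcongr
      exact mul_le_mul_of_nonneg_right this hi.le
    have h3 : (c.act (j :: m :: l) z).im ^ s ≤ (c.r j ^ 2 / g ^ 2) ^ s * z'.im ^ s := by
      rw [← Real.mul_rpow (by positivity) hi.le]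
      exact Real.rpow_le_rpow (c.act (j :: m :: l) z).im_pos.le h2 hs
    have h4 : (c.r j ^ 2 / g ^ 2) ^ s * (c.r m) ^ s = (c.r j) ^ s * (c.r j * c.r m / g ^ 2) ^ s := by
      rw [← Real.mul_rpow (by positivity) hrm.le, ← Real.mul_rpow hrj.le (by positivity)]
      congr 1
      ring
    set X := (c.r e * z.im / c.q e z ^ 2) ^ s with hX
    have hX0 : 0 ≤ X := by
      have := z.im_pos
      have := c.pos e
      rw [hX]
      positivity
    set P := wt (fun j => κ j ^ 2) (m :: l) with hP
    have hP0 : 0 < P := wt_pos (fun j => by have := G.kpos j; positivity) _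
    rw [wt_cons, ← hP]
    calc (c.act (j :: m :: l) z).im ^ s * (κ j * κ e)
        ≤ ((c.r j ^ 2 / g ^ 2) ^ s * z'.im ^ s) * (κ j * κ e) := by
          apply mul_le_mul_of_nonneg_right h3; positivity
      _ = (c.r j ^ 2 / g ^ 2) ^ s * (κ j / κ m) * (z'.im ^ s * (κ m * κ e)) := by
          field_simp
      _ ≤ (c.r j ^ 2 / g ^ 2) ^ s * (κ j / κ m) * ((c.r m) ^ s * P * X) := by
          apply mul_le_mul_of_nonneg_left IH; positivity
      _ = ((c.r j ^ 2 / g ^ 2) ^ s * (c.r m) ^ s) * (κ j / κ m) * (P * X) := by ring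
      _ = (c.r j) ^ s * (c.r j * c.r m / g ^ 2) ^ s * (κ j / κ m) * (P * X) := by rw [h4]
      _ ≤ (c.r j) ^ s * (κ j * κ m) * (κ j / κ m) * (P * X) := by
          have : 0 ≤ (κ j / κ m) := by positivity
          have h5 : 0 ≤ P * X := mul_nonneg hP0.le hX0
          gcongr
      _ = (c.r j) ^ s * (κ j ^ 2 * P) * X := by field_simp

/-- Points of tiles of high depth are close to the real axis. -/
lemma im_le (l : List ℕ) (hl : Cfg.Red l) (hne : l ≠ []) {z : ℍ} (hz : c.Ok l z) :
    (c.act l z).im ^ s ≤ 2 * wt κ l := by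
  obtain ⟨j, l, rfl⟩ := List.exists_cons_of_ne_nil hne
  set e := (j :: l).getLast hne with hedef
  have he : (j :: l).getLast? = some e := List.getLast?_eq_getLast_of_ne_nil hne
  have hz' := hz e he
  have h := G.est j l hl e he hz'
  have hkj := G.kpos j
  have hke := G.kpos e
  have hw := wt_pos G.kpos (j :: l)
  have hwe : wt κ (j :: l) ≤ κ e := wt_le_of_mem G.kpos G.kle (List.getLast_mem hne)
  have hX : (c.r e * z.im / c.q e z ^ 2) ^ s ≤ 1 := by
    apply Real.rpow_le_one
    · have := z.im_pos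
      have := c.pos e
      positivity
    · have h1 := c.q_pos e z
      rw [div_le_one (by positivity)]
      have h2 := c.im_le_q e z
      have h3 := z.im_pos
      have h4 := c.pos e
      nlinarith
    · exact G.spos.le
  rw [wt_sq] at h
  have hrk := G.rk j
  have hr0 : 0 ≤ (c.r j) ^ s := Real.rpow_nonneg (c.pos j).le _
  have h5 : (c.act (j :: l) z).im ^ s * (κ j * κ e) ≤ (2 * κ j) * wt κ (j :: l) ^ 2 := by
    refine h.trans ?_
    calc (c.r j) ^ s * wt κ (j :: l) ^ 2 * (c.r e * z.im / c.q e z ^ 2) ^ s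
        ≤ (c.r j) ^ s * wt κ (j :: l) ^ 2 * 1 := by
          apply mul_le_mul_of_nonneg_left hX; positivity
      _ ≤ _ := by rw [mul_one]; apply mul_le_mul_of_nonneg_right hrk; positivity
  have h6 : (2 * κ j) * wt κ (j :: l) ^ 2 ≤ (2 * wt κ (j :: l)) * (κ j * κ e) := by
    have : wt κ (j :: l) ^ 2 ≤ wt κ (j :: l) * κ e := by nlinarith
    nlinarith
  exact le_of_mul_le_mul_right (h5.trans h6) (by positivity)

lemma im_le' (l : List ℕ) (hl : Cfg.Red l) (hne : l ≠ []) {z : ℍ}
    (hz1 : ∀ j, 1 ≤ c.q j z) (hz2 : ∀ j, z.im ≤ c.q j z ^ 2) :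
    (c.act l z).im ^ s ≤ 4 * wt (fun j => κ j ^ 2) l := by
  obtain ⟨j, l, rfl⟩ := List.exists_cons_of_ne_nil hne
  set e := (j :: l).getLast hne with hedef
  have he : (j :: l).getLast? = some e := List.getLast?_eq_getLast_of_ne_nil hne
  have h := G.est j l hl e he ((G.rle e).trans (hz1 e))
  have hkj := G.kpos j
  have hke := G.kpos e
  have hre := c.pos e
  have hw := wt_pos (w := fun j => κ j ^ 2) (fun j => by have := G.kpos j; positivity) (j :: l)
  have hX : (c.r e * z.im / c.q e z ^ 2) ^ s ≤ 2 * κ e := by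
    refine le_trans ?_ (G.rk e)
    apply Real.rpow_le_rpow
    · have := z.im_pos
      positivity
    · have h1 := c.q_pos e z
      rw [div_le_iff₀ (by positivity)]
      exact mul_le_mul_of_nonneg_left (hz2 e) hre.le
    · exact G.spos.le
  have hrk := G.rk j
  have hr0 : 0 ≤ (c.r j) ^ s := Real.rpow_nonneg (c.pos j).le _
  have h5 : (c.act (j :: l) z).im ^ s * (κ j * κ e) ≤
      (4 * wt (fun j => κ j ^ 2) (j :: l)) * (κ j * κ e) := by
    refine h.trans ?_
    calc (c.r j) ^ s * wt (fun j => κ j ^ 2) (j :: l) * (c.r e * z.im / c.q e z ^ 2) ^ s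
        ≤ (2 * κ j) * wt (fun j => κ j ^ 2) (j :: l) * (2 * κ e) := by
          gcongr
      _ = _ := by ring
  exact le_of_mul_le_mul_right h5 (by positivity)

lemma summable_wt : Summable (wt (fun j => κ j ^ 2)) :=
  summable_list_prod (fun j => sq_nonneg _) G.ksum G.klt

lemma finite_wt {ε : ℝ} (hε : 0 < ε) : {l : List ℕ | ε ≤ wt κ l}.Finite := by
  have h1 := G.summable_wt.tendsto_cofinite_zero
  have h2 := h1.eventually (gt_mem_nhds (show (0 : ℝ) < ε ^ 2 by positivity))
  rw [eventually_cofinite] at h2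
  apply h2.subset
  intro l hl
  have hl' : ε ≤ wt κ l := hl
  show ¬ (wt (fun j => κ j ^ 2) l < ε ^ 2)
  rw [wt_sq, not_lt]
  exact pow_le_pow_left₀ hε.le hl' 2

/-- Every point lies in a tile. -/
lemma cover (z : ℍ) : ∃ l, Cfg.Red l ∧ ∃ z₀ ∈ c.dom, c.act l z₀ = z := by
  by_contra hcon
  push Not at hcon
  have key : ∀ n : ℕ, ∃ l : List ℕ, l.length = n ∧ Cfg.Red l ∧ ∃ z₀, c.Ok l z₀ ∧
      c.act l z₀ = z := by
    intro n
    induction n with
    | zero => exact ⟨[], rfl, List.isChain_nil, z, fun j hj => by simp at hj, rfl⟩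
    | succ n ih =>
      obtain ⟨l, hlen, hred, z₀, hok, hact⟩ := ih
      have hnd : z₀ ∉ c.dom := fun h => hcon l hred z₀ h hact
      have : ∃ j, c.q j z₀ < c.r j := by
        by_contra h
        push Not at h
        exact hnd h
      obtain ⟨j, hj⟩ := this
      refine ⟨l ++ [j], by simp [hlen], ?_, c.mat j • z₀, ?_, ?_⟩
      · unfold Cfg.Red
        rw [List.isChain_append]
        refine ⟨hred, List.isChain_singleton _, ?_⟩
        intro a ha b hb
        have hb' : b = j := by simpa using hb.symm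
        subst hb'
        rintro rfl
        exact absurd (hok a ha) (not_le.2 hj)
      · intro k hk
        have : j = k := by simpa using hk
        subst this
        exact (c.lt_q_mat hj).le
      · rw [c.act_append]
        simp only [Cfg.act_cons, Cfg.act_nil, c.mat_smul_mat_smul]
        exact hact
  have him : 0 < z.im ^ s / 2 := by
    have := Real.rpow_pos_of_pos z.im_pos s
    positivity
  have hfin := G.finite_wt him
  have hinf : Set.Infinite {l : List ℕ | z.im ^ s / 2 ≤ wt κ l} := by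
    choose L hL using key
    have hinj : Function.Injective fun n => L (n + 1) := by
      intro a b hab
      have h1 := (hL (a + 1)).1
      have h2 := (hL (b + 1)).1
      have hab' : L (a + 1) = L (b + 1) := hab
      rw [hab', h2] at h1
      omega
    refine Set.infinite_of_injective_forall_mem hinj ?_
    intro n
    obtain ⟨hlen, hred, z₀, hok, hact⟩ := hL (n + 1)
    have hne : L (n + 1) ≠ [] := by
      intro h; rw [h] at hlen; simp at hlen
    have := G.im_le _ hred hne hok
    rw [hact] at this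
    show z.im ^ s / 2 ≤ wt κ (L (n + 1))
    linarith
  exact hinf hfin

/-- Tiles -/
lemma finite_tiles {ε : ℝ} (hε : 0 < ε) :
    {l : List ℕ | Cfg.Red l ∧ ∃ z ∈ c.dom, ε ≤ (c.act l z).im}.Finite := by
  have h1 := G.finite_wt (show 0 < ε ^ s / 2 from by
    have := Real.rpow_pos_of_pos hε s
    positivity)
  apply (h1.union (Set.finite_singleton [])).subset
  rintro l ⟨hl, z, hz, him⟩
  by_cases hne : l = []
  · right; exact hne
  · left
    have h2 := G.im_le l hl hne (c.ok_of_dom l hz)
    have h3 : ε ^ s ≤ (c.act l z).im ^ s := Real.rpow_le_rpow hε.le him G.spos.le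
    show ε ^ s / 2 ≤ wt κ l
    linarith

end Good

end Pool.Agent.W598
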