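import Pool.Agent.W598.Glue
import Pool.Agent.W598.Defs

open UpperHalfPlane Filter Topology Set
open scoped MatrixGroups

namespace Pool.Agent.W598

lemma moebius_apply (g : SL(2, ℝ)) (z : ℍ) : moebius g z = g • z := rfl

namespace Cfg

variable (c : Cfg)

/-- the Möbius transformation of a word -/
noncomputable def wd (l : List ℕ) : ℍ ≃ₜ ℍ := moebius ((l.map c.mat).prod)

@[simp] lemma wd_apply (l : List ℕ) (z : ℍ) : c.wd l z = c.act l z := by
  unfold wd
  rw [moebius_apply]
  induction l with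
  | nil => simp
  | cons j l ih => rw [List.map_cons, List.prod_cons, mul_smul, ih]; rfl

/-- The group generated by the products of two half-turns. -/
noncomputable def grp : Subgroup (ℍ ≃ₜ ℍ) where
  carrier := {g | ∃ l : List ℕ, Even l.length ∧ ∀ z, g z = c.act l z}
  one_mem' := ⟨[], by simp, fun z => rfl⟩
  mul_mem' := by
    rintro g h ⟨l, hl, hl2⟩ ⟨m, hm, hm2⟩
    refine ⟨l ++ m, ?_, fun z => ?_⟩
    · rw [List.length_append]; exact hl.add hm
    · show g (h z) = _
      rw [hl2, hm2, c.act_append]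
  inv_mem' := by
    rintro g ⟨l, hl, hl2⟩
    refine ⟨l.reverse, by rw [List.length_reverse]; exact hl, fun z => ?_⟩
    show g.symm z = _
    rw [Homeomorph.symm_apply_eq, hl2, c.act_act_reverse]

lemma mem_grp {g : ℍ ≃ₜ ℍ} : g ∈ c.grp ↔ ∃ l : List ℕ, Even l.length ∧ ∀ z, g z = c.act l z :=
  Iff.rfl

lemma wd_mem {l : List ℕ} (hl : Even l.length) : c.wd l ∈ c.grp := ⟨l, hl, c.wd_apply l⟩

/-- every word may be reduced, within the same set of letters -/
lemma exists_red : ∀ (n : ℕ) (l : List ℕ), l.length = n → ∃ m : List ℕ, Red m ∧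
    (∀ z, c.act l z = c.act m z) ∧ (∀ j ∈ m, j ∈ l) ∧ (Even l.length ↔ Even m.length) := by
  intro n
  induction n using Nat.strong_induction_on with
  | _ n IH =>
    intro l hn
    by_cases hl : Red l
    · exact ⟨l, hl, fun _ => rfl, fun _ h => h, Iff.rfl⟩
    · obtain ⟨l₁, j, l₂, rfl⟩ := exists_cancel l hl
      have hlen : (l₁ ++ j :: j :: l₂).length = (l₁ ++ l₂).length + 2 := by
        simp; omega
      obtain ⟨m, hm, h1, h2, h3⟩ := IH (l₁ ++ l₂).length (by omega) (l₁ ++ l₂) rfl
      refine ⟨m, hm, fun z => ?_, fun k hk => ?_, ?_⟩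
      · rw [c.act_cancel, h1]
      · have := h2 k hk
        simp only [List.mem_append, List.mem_cons] at this ⊢
        tauto
      · rw [hlen, Nat.even_add, h3]
        simp

lemma grp_red {g : ℍ ≃ₜ ℍ} (hg : g ∈ c.grp) : ∃ l : List ℕ, Red l ∧ Even l.length ∧
    ∀ z, g z = c.act l z := by
  obtain ⟨l, hl, h⟩ := hg
  obtain ⟨m, hm, h1, -, h3⟩ := c.exists_red _ l rfl
  exact ⟨m, hm, h3.1 hl, fun z => by rw [h, h1]⟩

lemma grp_le : c.grp ≤ PSL2R := by
  intro g hg
  obtain ⟨l, -, h⟩ := hg
  refine ⟨(l.map c.mat).prod, ?_⟩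
  ext1 z
  rw [h]
  exact c.wd_apply l z

/-- strict ping-pong, at an interior point of the fundamental domain -/
lemma q_act_lt' (j : ℕ) (l : List ℕ) (hl : Red (j :: l)) {z : ℍ} (hz : ∀ j, c.r j < c.q j z) :
    c.q j (c.act (j :: l) z) < c.r j := by
  cases l with
  | nil => exact c.q_mat_lt (hz j)
  | cons m l => exact c.q_act_lt j m l hl fun k _ => (hz k).le

lemma red_unique {z : ℍ} (hz : ∀ j, c.r j < c.q j z) :
    ∀ (l m : List ℕ), Red l → Red m → c.act l z = c.act m z → l = m := by
  intro l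
  induction l with
  | nil =>
    intro m _ hm h
    cases m with
    | nil => rfl
    | cons k m =>
      have h1 := c.q_act_lt' k m hm hz
      rw [← h] at h1
      exact absurd h1 (not_lt.2 (hz k).le)
  | cons j l ih =>
    intro m hl hm h
    have h1 := c.q_act_lt' j l hl hz
    cases m with
    | nil =>
      rw [h] at h1
      exact absurd h1 (not_lt.2 (hz j).le)
    | cons k m =>
      have h2 := c.q_act_lt' k m hm hz
      have hjk : j = k := by
        by_contra hne
        have h3 := c.lt_q hne h1.le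
        rw [h] at h3
        exact absurd h2 (not_lt.2 h3.le)
      subst hjk
      have h4 : c.act l z = c.act m z := by
        have := congrArg (fun y => c.mat j • y) h
        simpa only [act_cons, c.mat_smul_mat_smul] using this
      rw [ih m (List.IsChain.tail hl) (List.IsChain.tail hm) h4]

/-- The group acts freely. -/
lemma grp_free {s : ℝ} {κ : ℕ → ℝ} (G : Good c s κ) {g : ℍ ≃ₜ ℍ} (hg : g ∈ c.grp)
    {z : ℍ} (hz : g z = z) : g = 1 := by
  obtain ⟨l, -, z₀, hz₀, rfl⟩ := G.cover z
  obtain ⟨m, hm, hgm⟩ := hg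
  obtain ⟨n, hn, h1, -, h3⟩ := c.exists_red _ (l.reverse ++ (m ++ l)) rfl
  have hfix : c.act n z₀ = z₀ := by
    rw [← h1, c.act_append, c.act_append, ← hgm, hz, c.act_reverse_act]
  have heven : Even n.length := by
    rw [← h3]
    simp only [List.length_append, List.length_reverse]
    obtain ⟨t, ht⟩ := hm
    exact ⟨l.length + t, by omega⟩
  have hnil : n = [] := by
    match n, hn, hfix, heven with
    | [], _, _, _ => rfl
    | [j], _, _, he => simp at he
    | j :: k :: n, hn, hfix, _ =>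
      have := c.q_act_lt j k n hn (c.ok_of_dom _ hz₀)
      rw [hfix] at this
      exact absurd this (not_lt.2 (hz₀ j))
  subst hnil
  ext1 y
  have h4 := h1 (c.act l.reverse y)
  rw [c.act_append, c.act_append, c.act_act_reverse, ← hgm] at h4
  have h5 := congrArg (c.act l) h4
  rw [c.act_act_reverse] at h5
  rw [h5]
  show c.act l (c.act l.reverse y) = y
  exact c.act_act_reverse l y

end Cfg

/-! ### Poincaré series -/

lemma exp_neg_dist_le (z : ℍ) : Real.exp (-dist I z) ≤ 2 * z.im := by
  have h1 := UpperHalfPlane.cosh_dist I z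
  have hi := z.im_pos
  have h2 : Real.cosh (dist I z) ≤ Real.exp (dist I z) := by
    rw [Real.cosh_eq]
    have : Real.exp (-dist I z) ≤ Real.exp (dist I z) :=
      Real.exp_le_exp.2 (by have : 0 ≤ dist I z := dist_nonneg; linarith)
    linarith
  have h3 : dist (I : ℂ) (z : ℂ) ^ 2 = z.re ^ 2 + (1 - z.im) ^ 2 := by
    rw [dist_eq_norm, ← Complex.normSq_eq_norm_sq, Complex.normSq_apply]
    simp
    ring
  have h4 : 1 / (2 * z.im) ≤ Real.cosh (dist I z) := by
    rw [h1, UpperHalfPlane.I_im]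
    rw [h3, mul_one, div_le_iff₀ (by positivity)]
    have h5 : (1 + (z.re ^ 2 + (1 - z.im) ^ 2) / (2 * z.im)) * (2 * z.im) =
        z.re ^ 2 + z.im ^ 2 + 1 := by
      field_simp
      ring
    rw [h5]
    nlinarith [sq_nonneg z.re, sq_nonneg z.im]
  rw [Real.exp_neg]
  have h6 : 1 / (2 * z.im) ≤ Real.exp (dist I z) := h4.trans h2
  rw [inv_le_comm₀ (Real.exp_pos _) (by positivity)]
  rwa [one_div] at h6

lemma one_le_q_I (c : Cfg) (j : ℕ) : 1 ≤ c.q j I := by
  have := c.im_le_q j I
  rwa [UpperHalfPlane.I_im] at this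

namespace Good

variable {c : Cfg} {s : ℝ} {κ : ℕ → ℝ} (G : Good c s κ)

include G

lemma term_le (l : List ℕ) (hl : Cfg.Red l) :
    Real.exp (-s * dist I (c.act l I)) ≤ 2 ^ s * 4 * wt (fun j => κ j ^ 2) l := by
  have hs := G.spos
  by_cases hne : l = []
  · subst hne
    rw [Cfg.act_nil, dist_self, mul_zero, Real.exp_zero, wt_nil]
    have : (1 : ℝ) ≤ 2 ^ s := Real.one_le_rpow (by norm_num) hs.le
    linarith
  · have h1 := G.im_le' l hl hne (z := I) (one_le_q_I c) (fun j => by
      have := one_le_q_I c j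
      rw [UpperHalfPlane.I_im]
      nlinarith)
    have h2 := exp_neg_dist_le (c.act l I)
    have hi := (c.act l I).im_pos
    calc Real.exp (-s * dist I (c.act l I)) = Real.exp (-dist I (c.act l I)) ^ s := by
          rw [← Real.exp_mul]; ring_nf
      _ ≤ (2 * (c.act l I).im) ^ s := Real.rpow_le_rpow (Real.exp_pos _).le h2 hs.le
      _ = 2 ^ s * (c.act l I).im ^ s := Real.mul_rpow (by norm_num) hi.le
      _ ≤ 2 ^ s * (4 * wt (fun j => κ j ^ 2) l) := by gcongr
      _ = _ := by ring

lemma summable_I : Summable fun γ : c.grp => Real.exp (-s * dist I ((γ : ℍ ≃ₜ ℍ) I)) := by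
  choose L hL1 _ hL3 using fun γ : c.grp => c.grp_red γ.2
  have hinj : Function.Injective L := by
    intro a b hab
    apply Subtype.ext
    ext1 z
    rw [hL3 a z, hL3 b z, hab]
  have h1 := ((G.summable_wt.mul_left (2 ^ s * 4)).comp_injective hinj)
  refine Summable.of_nonneg_of_le (fun γ => (Real.exp_pos _).le) (fun γ => ?_) h1
  rw [hL3 γ I]
  exact G.term_le (L γ) (hL1 γ)

end Good

lemma dist_grp (c : Cfg) {g : ℍ ≃ₜ ℍ} (hg : g ∈ c.grp) (z w : ℍ) : dist (g z) (g w) = dist z w := by
  obtain ⟨l, -, h⟩ := hg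
  rw [h, h, c.dist_act]

lemma summable_base (c : Cfg) {s : ℝ} (hs : 0 < s) (o o' : ℍ)
    (h : Summable fun γ : c.grp => Real.exp (-s * dist o ((γ : ℍ ≃ₜ ℍ) o))) :
    Summable fun γ : c.grp => Real.exp (-s * dist o' ((γ : ℍ ≃ₜ ℍ) o')) := by
  refine Summable.of_nonneg_of_le (fun γ => (Real.exp_pos _).le) (fun γ => ?_)
    (h.mul_left (Real.exp (s * (2 * dist o o'))))
  rw [← Real.exp_add]
  apply Real.exp_le_exp.2
  have h1 : dist o ((γ : ℍ ≃ₜ ℍ) o) ≤ dist o o' + dist o' ((γ : ℍ ≃ₜ ℍ) o') +
      dist ((γ : ℍ ≃ₜ ℍ) o') ((γ : ℍ ≃ₜ ℍ) o) := dist_triangle4 _ _ _ _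
  rw [dist_grp c γ.2, _root_.dist_comm o' o] at h1
  nlinarith

lemma critExp_le {c : Cfg} {s : ℝ} {κ : ℕ → ℝ} (G : Good c s κ) (o : ℍ) :
    critExp c.grp o ≤ s := by
  apply csInf_le
  · exact ⟨0, fun t ht => ht.1.le⟩
  · exact ⟨G.spos, summable_base c G.spos I o G.summable_I⟩

/-- the word coding a binary sequence -/
def bw : List Bool → List ℕ
  | [] => []
  | b :: l => 0 :: (if b then 1 else 2) :: bw l

lemma red_bw (b : List Bool) : Cfg.Red (bw b) := by
  induction b with
  | nil => exact List.isChain_nil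
  | cons b l ih =>
    cases l with
    | nil =>
      show Cfg.Red [0, if b then 1 else 2]
      unfold Cfg.Red
      cases b <;> simp
    | cons b' l =>
      show Cfg.Red (0 :: (if b then 1 else 2) :: 0 :: _)
      have ih' : Cfg.Red (0 :: (if b' then 1 else 2) :: bw l) := ih
      unfold Cfg.Red at ih' ⊢
      rw [List.isChain_cons_cons, List.isChain_cons_cons]
      refine ⟨by cases b <;> simp, by cases b <;> simp, ih'⟩

lemma even_bw (b : List Bool) : Even (bw b).length := by
  induction b with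
  | nil => simp [bw]
  | cons b l ih =>
    simp only [bw, List.length_cons]
    obtain ⟨t, ht⟩ := ih
    exact ⟨t + 1, by omega⟩

lemma bw_injective : Function.Injective bw := by
  intro a
  induction a with
  | nil => intro b h; cases b with
    | nil => rfl
    | cons b l => simp [bw] at h
  | cons x a ih =>
    intro b h
    cases b with
    | nil => simp [bw] at h
    | cons y b =>
      simp only [bw, List.cons.injEq] at h
      obtain ⟨-, h1, h2⟩ := h
      rw [ih h2]
      congr 1
      cases x <;> cases y <;> simp_all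

/-- a point above all the discs of radius at most one -/
noncomputable def top2 : ℍ := ⟨2 * Complex.I, by simp⟩

lemma lt_q_top2 (c : Cfg) (hr : ∀ j, c.r j ≤ 1) (j : ℕ) : c.r j < c.q j top2 := by
  have h := c.im_le_q j top2
  have h2 : top2.im = 2 := by
    show (2 * Complex.I).im = 2
    simp
  have := hr j
  linarith

lemma dist_bw (c : Cfg) {L : ℝ} (h1 : dist I (c.act [0, 1] I) ≤ L)
    (h2 : dist I (c.act [0, 2] I) ≤ L) (b : List Bool) :
    dist I (c.act (bw b) I) ≤ L * b.length := by
  induction b with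
  | nil => simp [bw]
  | cons b l ih =>
    have h3 : c.act (bw (b :: l)) I = c.act [0, if b then 1 else 2] (c.act (bw l) I) := rfl
    have h4 : dist (c.act [0, if b then 1 else 2] I) (c.act (bw (b :: l)) I) =
        dist I (c.act (bw l) I) := by
      rw [h3, c.dist_act]
    have h5 : dist I (c.act [0, if b then 1 else 2] I) ≤ L := by
      cases b
      · simpa using h2
      · simpa using h1
    have h6 := dist_triangle I (c.act [0, if b then 1 else 2] I) (c.act (bw (b :: l)) I)
    rw [h4] at h6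
    rw [List.length_cons]
    push_cast
    linarith

/-- divergence of the Poincaré series for small exponents -/
lemma not_summable (c : Cfg) (hr : ∀ j, c.r j ≤ 1) {L : ℝ}
    (h1 : dist I (c.act [0, 1] I) ≤ L) (h2 : dist I (c.act [0, 2] I) ≤ L) {s : ℝ} (hs : 0 < s)
    (hsL : s * L ≤ Real.log 2) :
    ¬ Summable fun γ : c.grp => Real.exp (-s * dist I ((γ : ℍ ≃ₜ ℍ) I)) := by
  intro h
  have hinj : Function.Injective fun b : List Bool =>
      (⟨c.wd (bw b), c.wd_mem (even_bw b)⟩ : c.grp) := by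
    intro a b hab
    have h3 : c.wd (bw a) = c.wd (bw b) := congrArg Subtype.val hab
    have h4 : c.act (bw a) top2 = c.act (bw b) top2 := by
      rw [← c.wd_apply, ← c.wd_apply, h3]
    exact bw_injective (c.red_unique (lt_q_top2 c hr) _ _ (red_bw a) (red_bw b) h4)
  have h3 := h.comp_injective hinj
  apply not_summable_half
  refine Summable.of_nonneg_of_le (fun b => by positivity) (fun b => ?_) h3
  show ((1 : ℝ) / 2) ^ b.length ≤ Real.exp (-s * dist I (c.wd (bw b) I))
  rw [c.wd_apply]
  have h5 := dist_bw c h1 h2 b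
  have h6 : ((1 : ℝ) / 2) ^ b.length = Real.exp (-Real.log 2 * b.length) := by
    rw [mul_comm, Real.exp_nat_mul, Real.exp_neg, Real.exp_log (by norm_num)]
    norm_num
  rw [h6]
  apply Real.exp_le_exp.2
  have h7 : (0 : ℝ) ≤ b.length := Nat.cast_nonneg _
  nlinarith

lemma le_critExp {c : Cfg} {s₁ : ℝ} {κ : ℕ → ℝ} (G : Good c s₁ κ) {L : ℝ}
    (h1 : dist I (c.act [0, 1] I) ≤ L) (h2 : dist I (c.act [0, 2] I) ≤ L) (hL : 0 < L) (o : ℍ) :
    Real.log 2 / L ≤ critExp c.grp o := by
  apply le_csInf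
  · exact ⟨s₁, G.spos, summable_base c G.spos I o G.summable_I⟩
  · rintro t ⟨ht, hsum⟩
    by_contra hlt
    push Not at hlt
    rw [lt_div_iff₀ hL] at hlt
    exact not_summable c G.rle h1 h2 ht hlt.le (summable_base c ht o I hsum)

end Pool.Agent.W598
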