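import Pool.Agent.W598.Strip

open UpperHalfPlane Filter Topology Set MeasureTheory
open scoped MatrixGroups

namespace Pool.Agent.W598

namespace Cfg

variable (c : Cfg)

/-- union of the closed intervals -/
def un : Set ℝ := ⋃ j, Icc (c.x j - c.r j) (c.x j + c.r j)

lemma measurableSet_un : MeasurableSet c.un := MeasurableSet.iUnion fun _ => measurableSet_Icc

/-- indicator of the complement of the intervals -/
noncomputable def fi : ℝ → ℝ := indicator c.unᶜ fun _ => 1

lemma fi_nonneg (t : ℝ) : 0 ≤ c.fi t := indicator_nonneg (fun _ _ => zero_le_one) t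

lemma fi_le_one (t : ℝ) : c.fi t ≤ 1 := by
  unfold fi
  by_cases h : t ∈ c.unᶜ
  · rw [indicator_of_mem h]
  · rw [indicator_of_notMem h]; exact zero_le_one

lemma fi_int (a b : ℝ) : IntervalIntegrable c.fi volume a b := by
  have h1 : IntervalIntegrable (fun _ : ℝ => (1 : ℝ)) volume a b := intervalIntegrable_const
  have h2 : Measurable c.fi := measurable_const.indicator c.measurableSet_un.compl
  refine h1.mono_fun h2.aestronglyMeasurable ?_
  refine Eventually.of_forall fun t => ?_
  show ‖c.fi t‖ ≤ ‖(1 : ℝ)‖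
  rw [Real.norm_of_nonneg (c.fi_nonneg t), Real.norm_of_nonneg zero_le_one]
  exact c.fi_le_one t

/-- length of the free part of `[0, t]` -/
noncomputable def fr (t : ℝ) : ℝ := ∫ s in (0 : ℝ)..t, c.fi s

lemma fr_sub (a b : ℝ) : c.fr b - c.fr a = ∫ s in a..b, c.fi s :=
  intervalIntegral.integral_interval_sub_left (c.fi_int 0 b) (c.fi_int 0 a)

lemma fr_mono {a b : ℝ} (h : a ≤ b) : 0 ≤ c.fr b - c.fr a := by
  rw [fr_sub]
  exact intervalIntegral.integral_nonneg h fun t _ => c.fi_nonneg t

lemma fr_le {a b : ℝ} (h : a ≤ b) : c.fr b - c.fr a ≤ b - a := by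
  rw [fr_sub]
  calc ∫ s in a..b, c.fi s ≤ ∫ _ in a..b, (1 : ℝ) :=
        intervalIntegral.integral_mono_on h (c.fi_int a b) intervalIntegrable_const
          fun t _ => c.fi_le_one t
    _ = b - a := by simp

lemma fr_const {j : ℕ} {t : ℝ} (h : |t - c.x j| ≤ c.r j) : c.fr t = c.fr (c.x j) := by
  have h1 : c.fr t - c.fr (c.x j) = 0 := by
    rw [fr_sub]
    rw [show (0 : ℝ) = ∫ s in (c.x j)..t, (0 : ℝ) by simp]
    apply intervalIntegral.integral_congr
    intro s hs
    unfold fi
    rw [indicator_of_notMem]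
    simp only [mem_compl_iff, not_not]
    refine mem_iUnion.2 ⟨j, ?_⟩
    have hr := c.pos j
    have h2 := abs_le.1 h
    have h3 : uIcc (c.x j) t ⊆ Icc (c.x j - c.r j) (c.x j + c.r j) := by
      apply uIcc_subset_Icc
      · constructor <;> linarith
      · constructor <;> linarith [h2.1, h2.2]
    exact h3 hs
  linarith

lemma le_fr {a b : ℝ} (hab : a ≤ b) {S : ℝ} (hS0 : 0 ≤ S)
    (h : volume (Ioo a b ∩ c.un) ≤ ENNReal.ofReal S) : b - a - S ≤ c.fr b - c.fr a := by
  rw [fr_sub, intervalIntegral.integral_of_le hab]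
  have h1 : ∫ s in Ioc a b, c.fi s = (volume.restrict (Ioc a b)).real c.unᶜ := by
    unfold fi
    rw [integral_indicator c.measurableSet_un.compl]
    simp [Measure.real]
  rw [h1]
  have h2 : (volume.restrict (Ioc a b)).real c.unᶜ = volume.real (Ioo a b ∩ c.unᶜ) := by
    unfold Measure.real
    rw [Measure.restrict_apply c.measurableSet_un.compl, inter_comm]
    congr 1
    have h3 : (Ioc a b : Set ℝ) =ᵐ[volume] Ioo a b := Ioo_ae_eq_Ioc.symm
    exact measure_congr (h3.inter (ae_eq_refl _))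
  rw [h2]
  have h4 : volume.real (Ioo a b) = b - a := by
    rw [Real.volume_real_Ioo_of_le hab]
  have h5 : volume.real (Ioo a b) ≤ volume.real (Ioo a b ∩ c.un) + volume.real (Ioo a b ∩ c.unᶜ) := by
    calc volume.real (Ioo a b) = volume.real ((Ioo a b ∩ c.un) ∪ (Ioo a b ∩ c.unᶜ)) := by
          rw [inter_union_compl]
      _ ≤ _ := measureReal_union_le _ _
  have h6 : volume.real (Ioo a b ∩ c.un) ≤ S := by
    unfold Measure.real
    exact ENNReal.toReal_le_of_le_ofReal hS0 h
  linarith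

/-- the stretch -/
noncomputable def st (Λ : ℝ) (t : ℝ) : ℝ := t + Λ * c.fr t

lemma st_sub_ge {Λ : ℝ} (hΛ : 0 ≤ Λ) {a b : ℝ} (h : a ≤ b) : b - a ≤ c.st Λ b - c.st Λ a := by
  have := c.fr_mono h
  unfold st
  nlinarith

lemma st_sub_le {Λ : ℝ} (hΛ : 0 ≤ Λ) {a b : ℝ} (h : a ≤ b) :
    c.st Λ b - c.st Λ a ≤ (1 + Λ) * (b - a) := by
  have := c.fr_le h
  unfold st
  nlinarith

lemma abs_st_ge {Λ : ℝ} (hΛ : 0 ≤ Λ) (a b : ℝ) : |a - b| ≤ |c.st Λ a - c.st Λ b| := by
  rcases le_total a b with h | h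
  · rw [abs_sub_comm, abs_sub_comm (c.st Λ a)]
    have := c.st_sub_ge hΛ h
    rw [abs_of_nonneg (by linarith), abs_of_nonneg (by linarith)]
    exact this
  · have := c.st_sub_ge hΛ h
    rw [abs_of_nonneg (by linarith), abs_of_nonneg (by linarith)]
    exact this

lemma abs_st_le {Λ : ℝ} (hΛ : 0 ≤ Λ) (a b : ℝ) : |c.st Λ a - c.st Λ b| ≤ (1 + Λ) * |a - b| := by
  rcases le_total a b with h | h
  · rw [abs_sub_comm, abs_sub_comm a]
    have h1 := c.st_sub_ge hΛ h
    have := c.st_sub_le hΛ h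
    rw [abs_of_nonneg (by linarith), abs_of_nonneg (by linarith)]
    exact this
  · have h1 := c.st_sub_ge hΛ h
    have := c.st_sub_le hΛ h
    rw [abs_of_nonneg (by linarith), abs_of_nonneg (by linarith)]
    exact this

lemma strictMono_st {Λ : ℝ} (hΛ : 0 ≤ Λ) : StrictMono (c.st Λ) := by
  intro a b h
  have := c.st_sub_ge hΛ h.le
  linarith

lemma continuous_st {Λ : ℝ} (hΛ : 0 ≤ Λ) : Continuous (c.st Λ) := by
  have : LipschitzWith (Real.toNNReal (1 + Λ)) (c.st Λ) := by
    apply LipschitzWith.of_dist_le_mul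
    intro a b
    rw [Real.dist_eq, Real.dist_eq, Real.coe_toNNReal _ (by linarith)]
    exact c.abs_st_le hΛ a b
  exact this.continuous

lemma surjective_st {Λ : ℝ} (hΛ : 0 ≤ Λ) : Function.Surjective (c.st Λ) := by
  apply (c.continuous_st hΛ).surjective
  · apply tendsto_atTop_mono' atTop (f₁ := fun t => t + c.st Λ 0)
    · filter_upwards [eventually_ge_atTop (0 : ℝ)] with t ht
      have := c.st_sub_ge hΛ ht
      linarith
    · exact tendsto_atTop_add_const_right _ _ tendsto_id
  · apply tendsto_atBot_mono' atBot (f₁ := fun t => t + c.st Λ 0)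
    · filter_upwards [eventually_le_atBot (0 : ℝ)] with t ht
      have := c.st_sub_ge hΛ ht
      linarith
    · exact tendsto_atBot_add_const_right _ _ tendsto_id

/-- the stretched configuration -/
noncomputable def stretch (Λ : ℝ) (hΛ : 0 ≤ Λ) : Cfg where
  x j := c.st Λ (c.x j)
  r := c.r
  pos := c.pos
  sep i j h := (c.sep i j h).trans_le (c.abs_st_ge hΛ _ _)

lemma moves {Λ : ℝ} (hΛ : 0 ≤ Λ) : Moves c (c.stretch Λ hΛ) (c.st Λ) where
  cont := c.continuous_st hΛ
  mono := c.strictMono_st hΛ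
  req _ := rfl
  trans j t ht := by
    show c.st Λ t = t + (c.st Λ (c.x j) - c.x j)
    unfold st
    rw [c.fr_const ht]
    ring

end Cfg

/-- The equivariant quasiconformal map between a configuration and its stretch. -/
lemma exists_qc {c : Cfg} {Λ : ℝ} (hΛ : 0 ≤ Λ) {s s' : ℝ} {κ κ' : ℕ → ℝ} (G : Good c s κ)
    (G' : Good (c.stretch Λ hΛ) s' κ') (h0 : c.x 0 = 0) (h1 : c.r 0 = 1) :
    ∃ w : ℍ ≃ₜ ℍ, IsQuasiconformal w ∧ ∀ (l : List ℕ) (z : ℍ),
      w (c.act l z) = (c.stretch Λ hΛ).act l (w z) := by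
  set c' := c.stretch Λ hΛ with hc'
  have M : Moves c c' (c.st Λ) := c.moves hΛ
  obtain ⟨ψ, hψ⟩ := (c.surjective_st hΛ).hasRightInverse
  have hψ2 : ∀ t, ψ (c.st Λ t) = t := fun t => (c.strictMono_st hΛ).injective (hψ _)
  have hlip : ∀ a b, |ψ a - ψ b| ≤ 1 * |a - b| := by
    intro a b
    have := c.abs_st_ge hΛ (ψ a) (ψ b)
    rwa [hψ, hψ, ← one_mul |a - b|] at this
  have hψc : Continuous ψ := by
    have : LipschitzWith 1 ψ := by
      apply LipschitzWith.of_dist_le_mul
      intro a b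
      rw [Real.dist_eq, Real.dist_eq]
      exact_mod_cast hlip a b
    exact this.continuous
  have hψm : StrictMono ψ := by
    intro a b hab
    by_contra hcon
    push Not at hcon
    have := (c.strictMono_st hΛ).monotone hcon
    rw [hψ, hψ] at this
    linarith
  have M' : Moves c' c ψ := M.symm hψc hψm hψ2
  have P := M.pairing
  have P' := M'.pairing
  have i1 : ∀ z, strip ψ (strip (c.st Λ) z) = z := by
    intro z
    ext1
    apply Complex.ext
    · show ((strip ψ (strip (c.st Λ) z) : ℍ) : ℂ).re = _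
      rw [UpperHalfPlane.coe_re, strip_re, strip_re, hψ2]; rfl
    · rfl
  have i2 : ∀ z, strip (c.st Λ) (strip ψ z) = z := by
    intro z
    ext1
    apply Complex.ext
    · show ((strip (c.st Λ) (strip ψ z) : ℍ) : ℂ).re = _
      rw [UpperHalfPlane.coe_re, strip_re, strip_re, hψ]; rfl
    · rfl
  have hK : (1 : ℝ) ≤ 1 + Λ := by linarith
  refine ⟨glueHomeo G G' P P' i1 i2, ?_, ?_⟩
  · apply isQuasiconformal_of hK
    · intro z
      exact eventually_lip G P (dist_strip_le hK (c.abs_st_le hΛ)) z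
    · intro z
      filter_upwards [eventually_lip G' P' (dist_strip_le le_rfl hlip) z] with y hy
      refine hy.trans ?_
      gcongr
    · refine ⟨top2, c'.x 0 - c.x 0, ?_⟩
      have e1 : {z : ℍ | 1 < z.im} ∈ 𝓝 top2 := by
        apply (isOpen_lt continuous_const UpperHalfPlane.continuous_im).mem_nhds
        show 1 < top2.im
        show 1 < (2 * Complex.I).im
        simp
      have e2 : {z : ℍ | |z.re| < 1} ∈ 𝓝 top2 := by
        apply (isOpen_lt (UpperHalfPlane.continuous_re.abs) continuous_const).mem_nhds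
        show |top2.re| < 1
        show |(2 * Complex.I).re| < 1
        simp
      filter_upwards [e1, e2] with y hy1 hy2
      have hy1' : 1 < y.im := hy1
      have hy2' : |y.re| < 1 := hy2
      have hdom : y ∈ c.dom := fun j => (G.rle j).trans (hy1'.le.trans (c.im_le_q j y))
      have h3 : glue c' G (strip (c.st Λ)) y = strip (c.st Λ) y := glue_dom G P hdom
      show ((glue c' G (strip (c.st Λ)) y : ℍ) : ℂ) = _
      rw [h3]
      apply coe_strip_of_trans
      apply M.trans 0
      rw [h0, sub_zero, h1]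
      exact hy2'.le
  · intro l
    induction l with
    | nil => intro z; rfl
    | cons j l ih =>
      intro z
      rw [Cfg.act_cons, Cfg.act_cons, ← ih]
      exact glue_mat G P j _

end Pool.Agent.W598
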