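import Pool.Agent.W598.Group

open UpperHalfPlane Filter Topology Set
open scoped MatrixGroups

namespace Pool.Agent.W598

/-- The map `(x, y) ↦ (φ x, y)` of the upper half plane. -/
noncomputable def strip (φ : ℝ → ℝ) (z : ℍ) : ℍ := ⟨⟨φ z.re, z.im⟩, z.im_pos⟩

lemma strip_re (φ : ℝ → ℝ) (z : ℍ) : (strip φ z).re = φ z.re := rfl
lemma strip_im (φ : ℝ → ℝ) (z : ℍ) : (strip φ z).im = z.im := rfl

lemma continuous_strip {φ : ℝ → ℝ} (h : Continuous φ) : Continuous (strip φ) := by
  rw [UpperHalfPlane.isEmbedding_coe.continuous_iff]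
  have h1 : (UpperHalfPlane.coe ∘ strip φ) = fun z : ℍ => (φ z.re : ℂ) + (z.im : ℂ) * Complex.I := by
    funext z
    apply Complex.ext
    · show ((strip φ z : ℍ) : ℂ).re = _
      rw [UpperHalfPlane.coe_re, strip_re]; simp
    · show ((strip φ z : ℍ) : ℂ).im = _
      rw [UpperHalfPlane.coe_im, strip_im]; simp
  rw [h1]
  exact (Complex.continuous_ofReal.comp (h.comp UpperHalfPlane.continuous_re)).add
    ((Complex.continuous_ofReal.comp UpperHalfPlane.continuous_im).mul continuous_const)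

lemma mul_sinh_le {K x : ℝ} (hK : 1 ≤ K) (hx : 0 ≤ x) : K * Real.sinh x ≤ Real.sinh (K * x) := by
  have hconv : ConvexOn ℝ (Ici (0 : ℝ)) Real.sinh := by
    apply MonotoneOn.convexOn_of_deriv (convex_Ici 0) Real.continuous_sinh.continuousOn
      Real.differentiable_sinh.differentiableOn
    rw [interior_Ici, Real.deriv_sinh]
    intro a ha b hb hab
    rw [Real.cosh_le_cosh, abs_of_pos ha, abs_of_pos hb]
    exact hab
  have hK0 : 0 < K := by linarith
  have hKx : (K * x) ∈ Ici (0 : ℝ) := by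
    show 0 ≤ K * x
    positivity
  have hinv : 0 ≤ 1 - K⁻¹ := by
    have := inv_le_one_of_one_le₀ hK
    linarith
  have h1 := hconv.2 (show (0 : ℝ) ∈ Ici (0 : ℝ) by simp) hKx hinv
    (show 0 ≤ K⁻¹ by positivity) (by ring)
  simp only [smul_eq_mul, mul_zero, Real.sinh_zero, zero_add] at h1
  rw [← mul_assoc, inv_mul_cancel₀ hK0.ne', one_mul] at h1
  calc K * Real.sinh x ≤ K * (K⁻¹ * Real.sinh (K * x)) := by gcongr
    _ = Real.sinh (K * x) := by rw [← mul_assoc, mul_inv_cancel₀ hK0.ne', one_mul]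

lemma dist_strip_le {φ : ℝ → ℝ} {K : ℝ} (hK : 1 ≤ K) (h : ∀ a b, |φ a - φ b| ≤ K * |a - b|)
    (z w : ℍ) : dist (strip φ z) (strip φ w) ≤ K * dist z w := by
  have h1 := UpperHalfPlane.sinh_half_dist z w
  have h2 := UpperHalfPlane.sinh_half_dist (strip φ z) (strip φ w)
  have h3 : dist ((strip φ z : ℍ) : ℂ) (strip φ w) ≤ K * dist (z : ℂ) w := by
    have e1 : dist ((strip φ z : ℍ) : ℂ) (strip φ w) ^ 2 =
        (φ z.re - φ w.re) ^ 2 + (z.im - w.im) ^ 2 := by
      rw [dist_eq_norm, ← Complex.normSq_eq_norm_sq, Complex.normSq_apply]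
      simp only [Complex.sub_re, Complex.sub_im, UpperHalfPlane.coe_re, UpperHalfPlane.coe_im,
        strip_re, strip_im]
      ring
    have e2 : dist (z : ℂ) (w : ℂ) ^ 2 = (z.re - w.re) ^ 2 + (z.im - w.im) ^ 2 := by
      rw [dist_eq_norm, ← Complex.normSq_eq_norm_sq, Complex.normSq_apply]
      simp only [Complex.sub_re, Complex.sub_im, UpperHalfPlane.coe_re, UpperHalfPlane.coe_im]
      ring
    have hK0 : 0 ≤ K := by linarith
    apply le_of_sq_le_sq _ (by positivity)
    rw [mul_pow, e1, e2]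
    have h4 : (φ z.re - φ w.re) ^ 2 ≤ K ^ 2 * (z.re - w.re) ^ 2 := by
      rw [← mul_pow, ← sq_abs (φ z.re - φ w.re), ← sq_abs (K * (z.re - w.re)), abs_mul,
        abs_of_nonneg hK0]
      exact pow_le_pow_left₀ (abs_nonneg _) (h _ _) 2
    have h5 : (z.im - w.im) ^ 2 ≤ K ^ 2 * (z.im - w.im) ^ 2 := by
      have : 1 ≤ K ^ 2 := one_le_pow₀ hK
      nlinarith [sq_nonneg (z.im - w.im)]
    linarith
  have h4 : Real.sinh (dist (strip φ z) (strip φ w) / 2) ≤ Real.sinh (K * (dist z w / 2)) := by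
    refine le_trans ?_ (mul_sinh_le hK (by positivity))
    rw [h1, h2, strip_im, strip_im, ← mul_div_assoc]
    gcongr
  have h5 := Real.sinh_le_sinh.1 h4
  linarith

/-- A configuration moved by `φ`. -/
structure Moves (c c' : Cfg) (φ : ℝ → ℝ) : Prop where
  cont : Continuous φ
  mono : StrictMono φ
  req : ∀ j, c'.r j = c.r j
  trans : ∀ j t, |t - c.x j| ≤ c.r j → φ t = t + (c'.x j - c.x j)

lemma Moves.abs_lt {c c' : Cfg} {φ : ℝ → ℝ} (M : Moves c c' φ) {j : ℕ} {t : ℝ}
    (h : c.r j < |t - c.x j|) : c.r j < |φ t - c'.x j| := by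
  have hr := c.pos j
  rcases lt_abs.1 h with h1 | h1
  · have h2 := M.mono (show c.x j + c.r j < t by linarith)
    rw [M.trans j (c.x j + c.r j) (by
      rw [show c.x j + c.r j - c.x j = c.r j by ring, abs_of_pos hr])] at h2
    apply lt_abs.2; left; linarith
  · have h2 := M.mono (show t < c.x j - c.r j by linarith)
    rw [M.trans j (c.x j - c.r j) (by
      rw [show c.x j - c.r j - c.x j = -c.r j by ring, abs_neg, abs_of_pos hr])] at h2
    apply lt_abs.2; right; linarith

lemma coe_strip_of_trans {φ : ℝ → ℝ} {z : ℍ} {t : ℝ} (h : φ z.re = z.re + t) :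
    ((strip φ z : ℍ) : ℂ) = (z : ℂ) + (t : ℂ) := by
  apply Complex.ext
  · simp only [UpperHalfPlane.coe_re, strip_re, Complex.add_re, Complex.ofReal_re, h]
  · simp only [UpperHalfPlane.coe_im, strip_im, Complex.add_im, Complex.ofReal_im, add_zero]

lemma Moves.pairing {c c' : Cfg} {φ : ℝ → ℝ} (M : Moves c c' φ) : Pairing c c' (strip φ) where
  cont := continuous_strip M.cont
  maps := by
    intro z hz j
    have hr := c.pos j
    rw [M.req j]
    have hq := c'.q_sq j (strip φ z)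
    rw [strip_re, strip_im] at hq
    have hq2 := c.q_sq j z
    have hzj := hz j
    have hp := c'.q_pos j (strip φ z)
    apply le_of_sq_le_sq _ hp.le
    rw [hq]
    by_cases h : |z.re - c.x j| ≤ c.r j
    · rw [M.trans j _ h]
      have : z.re + (c'.x j - c.x j) - c'.x j = z.re - c.x j := by ring
      rw [this, ← hq2]
      exact pow_le_pow_left₀ hr.le hzj 2
    · push Not at h
      have h1 := M.abs_lt h
      have h2 : c.r j ^ 2 ≤ |φ z.re - c'.x j| ^ 2 := pow_le_pow_left₀ hr.le h1.le 2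
      rw [sq_abs] at h2
      nlinarith [sq_nonneg z.im]
  comp := by
    intro j z hz
    have h1 : c.q j (c.mat j • z) ≤ c.r j := c.q_mat_le hz.ge
    have re_le : ∀ w : ℍ, c.q j w ≤ c.r j → |w.re - c.x j| ≤ c.r j := by
      intro w hw
      have h2 := c.q_sq j w
      have h3 := c.q_pos j w
      apply abs_le_of_sq_le_sq _ (c.pos j).le
      nlinarith [w.im_pos]
    ext1
    rw [coe_strip_of_trans (M.trans j _ (re_le _ h1)), c'.coe_mat_smul, c.coe_mat_smul,
      coe_strip_of_trans (M.trans j _ (re_le _ hz.le)), M.req j]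
    have : (z : ℂ) + ((c'.x j - c.x j : ℝ) : ℂ) - (c'.x j : ℂ) = z - c.x j := by push_cast; ring
    rw [this]
    push_cast
    ring

/-- The inverse homeomorphism moves the configuration back. -/
lemma Moves.symm {c c' : Cfg} {φ φ' : ℝ → ℝ} (M : Moves c c' φ) (hc : Continuous φ')
    (hm : StrictMono φ') (h1 : ∀ t, φ' (φ t) = t) : Moves c' c φ' where
  cont := hc
  mono := hm
  req := fun j => (M.req j).symm
  trans := by
    intro j t ht
    rw [M.req j] at ht
    have h3 : |(t + (c.x j - c'.x j)) - c.x j| ≤ c.r j := by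
      have : (t + (c.x j - c'.x j)) - c.x j = t - c'.x j := by ring
      rwa [this]
    have h4 := M.trans j _ h3
    have h5 : φ (t + (c.x j - c'.x j)) = t := by rw [h4]; ring
    rw [← h1 (t + (c.x j - c'.x j)), h5]

/-! ### quasiconformality -/

/-- A homeomorphism that is pointwise bi-Lipschitz with uniform constants and is a translation
near some point is quasiconformal. -/
lemma isQuasiconformal_of {w : ℍ ≃ₜ ℍ} {K : ℝ} (hK : 1 ≤ K)
    (h1 : ∀ z : ℍ, ∀ᶠ y in 𝓝 z, dist (w z) (w y) ≤ K * dist z y)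
    (h2 : ∀ z : ℍ, ∀ᶠ y in 𝓝 z, dist (w.symm z) (w.symm y) ≤ K * dist z y)
    (h3 : ∃ (z : ℍ) (t : ℝ), ∀ᶠ y in 𝓝 z, ((w y : ℍ) : ℂ) = (y : ℂ) + (t : ℂ)) :
    IsQuasiconformal w := by
  refine ⟨⟨K * K, ?_⟩, ?_⟩
  · intro z
    obtain ⟨ε, hε, hb⟩ := Metric.eventually_nhds_iff.1 (h1 z)
    obtain ⟨η, hη, hb'⟩ := Metric.eventually_nhds_iff.1 (h2 (w z))
    have hK0 : 0 < K := by linarith
    have hmem : Ioo 0 (min ε (K * η)) ∈ 𝓝[>] (0 : ℝ) :=
      Ioo_mem_nhdsGT (by positivity)
    filter_upwards [hmem] with r hr z₁ z₂ hz₁ hz₂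
    obtain ⟨hr0, hr1⟩ := hr
    have hrε : r < ε := lt_of_lt_of_le hr1 (min_le_left _ _)
    have hrη : r < K * η := lt_of_lt_of_le hr1 (min_le_right _ _)
    have h4 : dist (w z) (w z₁) ≤ K * r := by
      refine (hb (y := z₁) ?_).trans (by gcongr)
      rw [_root_.dist_comm]
      linarith
    have h5 : r ≤ K * dist (w z) (w z₂) := by
      by_contra hlt
      push Not at hlt
      have h6 : dist (w z₂) (w z) < η := by
        rw [_root_.dist_comm]
        have : K * dist (w z) (w z₂) < K * η := hlt.trans hrη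
        exact lt_of_mul_lt_mul_left this hK0.le
      have h7 := hb' h6
      rw [w.symm_apply_apply, w.symm_apply_apply] at h7
      linarith
    calc dist (w z) (w z₁) ≤ K * r := h4
      _ ≤ K * (K * dist (w z) (w z₂)) := by gcongr
      _ = K * K * dist (w z) (w z₂) := by ring
  · obtain ⟨z, t, hz⟩ := h3
    have hev : ext w =ᶠ[𝓝 (z : ℂ)] fun y => y + (t : ℂ) := by
      have h4 : ∀ᶠ y : ℂ in 𝓝 (z : ℂ), ((w (ofComplex y) : ℍ) : ℂ) = ((ofComplex y : ℍ) : ℂ) + t := by
        have hc : Tendsto (ofComplex : ℂ → ℍ) (𝓝 (z : ℂ)) (𝓝 z) := by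
          have h5 : ContinuousAt (ofComplex : ℂ → ℍ) (z : ℂ) := by
            apply (ofComplex.continuousAt _)
            rw [UpperHalfPlane.ofComplex]
            simp [z.im_pos]
          have h6 := h5.tendsto
          rwa [ofComplex_apply] at h6
        exact hc.eventually hz
      have h7 : ∀ᶠ y : ℂ in 𝓝 (z : ℂ), 0 < y.im :=
        (isOpen_lt continuous_const Complex.continuous_im).mem_nhds z.im_pos
      filter_upwards [h4, h7] with y hy hy2
      unfold ext
      rw [hy, ofComplex_apply_of_im_pos hy2]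
    refine ⟨z, ?_, ?_⟩
    · refine DifferentiableAt.congr_of_eventuallyEq ?_ hev
      fun_prop
    · rw [hev.fderiv_eq]
      have h8 : fderiv ℝ (fun y : ℂ => y + (t : ℂ)) (z : ℂ) = ContinuousLinearMap.id ℝ ℂ := by
        rw [fderiv_add_const]
        exact fderiv_fun_id
      rw [h8]
      simp [ContinuousLinearMap.det]

end Pool.Agent.W598
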